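import Pool.Agent.helper47.SC.Spec

/-!
# Row sc:NSQ
-/

open scoped Topology ContDiff
open Set Filter Metric MeasureTheory

namespace Pool.Agent.SC

theorem NSQ_expand (s : C3) : nsq s = s.1.re ^ 2 + s.1.im ^ 2 + (s.2.1.re ^ 2 + s.2.1.im ^ 2)
    + (s.2.2.re ^ 2 + s.2.2.im ^ 2) := by
  unfold nsq
  simp only [Complex.sq_norm, Complex.normSq_apply]
  ring

theorem NSQ_nonneg (s : C3) : 0 ≤ nsq s := by
  unfold nsq; positivity

theorem NSQ_contDiff : ContDiff ℝ ∞ nsq := by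
  unfold nsq
  have h1 : ContDiff ℝ ∞ (fun s : C3 => ‖s.1‖ ^ 2) := (contDiff_fst).norm_sq ℝ
  have h2 : ContDiff ℝ ∞ (fun s : C3 => ‖s.2.1‖ ^ 2) := (contDiff_fst.comp contDiff_snd).norm_sq ℝ
  have h3 : ContDiff ℝ ∞ (fun s : C3 => ‖s.2.2‖ ^ 2) := (contDiff_snd.comp contDiff_snd).norm_sq ℝ
  exact (h1.add h2).add h3

/-- the real inner product on `C3` -/
noncomputable def NSQ_ip (s t : C3) : ℝ := s.1.re * t.1.re + s.1.im * t.1.im
  + (s.2.1.re * t.2.1.re + s.2.1.im * t.2.1.im) + (s.2.2.re * t.2.2.re + s.2.2.im * t.2.2.im)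

theorem NSQ_add (s t : C3) : nsq (s + t) = nsq s + nsq t + 2 * NSQ_ip s t := by
  simp only [NSQ_expand, NSQ_ip, Prod.fst_add, Prod.snd_add, Complex.add_re, Complex.add_im]
  ring

theorem NSQ_sub (s t : C3) : nsq (s - t) = nsq s + nsq t - 2 * NSQ_ip s t := by
  simp only [NSQ_expand, NSQ_ip, Prod.fst_sub, Prod.snd_sub, Complex.sub_re, Complex.sub_im]
  ring

theorem NSQ_smul (r : ℝ) (s : C3) : nsq (r • s) = r ^ 2 * nsq s := by
  simp only [NSQ_expand, Prod.smul_fst, Prod.smul_snd, Complex.smul_re, Complex.smul_im,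
    smul_eq_mul]
  ring

theorem NSQ_ip_smul (r : ℝ) (s t : C3) : NSQ_ip (r • s) t = r * NSQ_ip s t := by
  simp only [NSQ_ip, Prod.smul_fst, Prod.smul_snd, Complex.smul_re, Complex.smul_im,
    smul_eq_mul]
  ring

theorem NSQ_cs (s t : C3) : (NSQ_ip s t) ^ 2 ≤ nsq s * nsq t := by
  have h := Finset.sum_mul_sq_le_sq_mul_sq (Finset.univ : Finset (Fin 6))
    (![s.1.re, s.1.im, s.2.1.re, s.2.1.im, s.2.2.re, s.2.2.im])
    (![t.1.re, t.1.im, t.2.1.re, t.2.1.im, t.2.2.re, t.2.2.im])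
  simp only [Fin.sum_univ_six, Matrix.cons_val_zero, Matrix.cons_val_one, Matrix.cons_val] at h
  rw [NSQ_expand, NSQ_expand, NSQ_ip]
  calc _ = _ := by ring
    _ ≤ _ := h
    _ = _ := by ring

theorem NSQ_tri (s t : C3) :
    Real.sqrt (nsq (s + t)) ≤ Real.sqrt (nsq s) + Real.sqrt (nsq t) := by
  apply Real.sqrt_le_iff.mpr
  have h1 := Real.sqrt_nonneg (nsq s)
  have h2 := Real.sqrt_nonneg (nsq t)
  have e1 := Real.sq_sqrt (NSQ_nonneg s)
  have e2 := Real.sq_sqrt (NSQ_nonneg t)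
  refine ⟨by positivity, ?_⟩
  have h3 : NSQ_ip s t ≤ Real.sqrt (nsq s) * Real.sqrt (nsq t) := by
    apply le_of_abs_le
    apply abs_le_of_sq_le_sq _ (by positivity)
    rw [mul_pow, e1, e2]
    exact NSQ_cs s t
  rw [NSQ_add]
  nlinarith

theorem NSQ : NSQ_stmt := by
  refine ⟨NSQ_tri, NSQ_contDiff.continuous, NSQ_contDiff, NSQ_smul, ?_, NSQ_nonneg, ?_, ?_, ?_, ?_,
    ?_, ?_⟩
  · intro s
    constructor
    · intro h
      unfold nsq at h
      have h1 : ‖s.1‖ ^ 2 = 0 := by nlinarith [sq_nonneg ‖s.1‖, sq_nonneg ‖s.2.1‖, sq_nonneg ‖s.2.2‖]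
      have h2 : ‖s.2.1‖ ^ 2 = 0 := by
        nlinarith [sq_nonneg ‖s.1‖, sq_nonneg ‖s.2.1‖, sq_nonneg ‖s.2.2‖]
      have h3 : ‖s.2.2‖ ^ 2 = 0 := by
        nlinarith [sq_nonneg ‖s.1‖, sq_nonneg ‖s.2.1‖, sq_nonneg ‖s.2.2‖]
      have g1 : s.1 = 0 := by simpa using h1
      have g2 : s.2.1 = 0 := by simpa using h2
      have g3 : s.2.2 = 0 := by simpa using h3
      exact Prod.ext g1 (Prod.ext g2 g3)
    · rintro rfl
      simp [nsq]
  · intro r s t hr hst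
    have e1 := NSQ_sub s t
    have e2 := NSQ_sub (r • s) t
    rw [NSQ_smul, NSQ_ip_smul] at e2
    have h0 := NSQ_nonneg (s - t)
    rw [e1] at h0
    have hs := NSQ_nonneg s
    have h4 : 0 ≤ (r - 1) * ((r + 1) * nsq s - 2 * NSQ_ip s t) := by
      apply mul_nonneg (by linarith)
      nlinarith
    rw [e1, e2]
    nlinarith
  · intro s
    unfold nsq
    nlinarith [sq_nonneg ‖s.1‖, sq_nonneg ‖s.2.1‖, sq_nonneg ‖s.2.2‖]
  · intro s
    unfold nsq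
    nlinarith [sq_nonneg ‖s.1‖, sq_nonneg ‖s.2.1‖, sq_nonneg ‖s.2.2‖]
  · intro s
    unfold nsq
    nlinarith [sq_nonneg ‖s.1‖, sq_nonneg ‖s.2.1‖, sq_nonneg ‖s.2.2‖]
  · intro s t
    rw [NSQ_sub, NSQ_sub]
    simp only [NSQ_ip]
    ring
  · intro s t hs ht
    have e1 := NSQ_sub s t
    have e2 := NSQ_add s t
    have h0 := NSQ_nonneg (s + t)
    rw [e2] at h0
    rw [e1]
    linarith

end Pool.Agent.SC
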