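import Pool.Agent.helper44.SC.Gard8

/-!
# Garding theory: the bridge to `Ph`
-/

set_option autoImplicit false

open Polynomial Set Filter Topology

noncomputable section

namespace GTH

open Pool.Agent.helper83.SC (mD mD_perm mD_smul_univ)
open Pool.Agent.helper69.SN

theorem slot_eq {m n : ℕ} (B : Fin n → Mat m) (T : Finset (Fin n)) (M : Mat m) :
    slot B T M = fun j : Fin m => (T.sort.map B).getD j M := by
  funext j
  unfold slot
  by_cases h : (j : ℕ) < T.card
  · rw [dif_pos h, List.getD_eq_getElem _ _ (by simpa using h), List.getElem_map]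
    rfl
  · rw [dif_neg h, List.getD_eq_default _ _ (by simpa using h)]

theorem slotA_eq {m n : ℕ} (B : Fin n → Mat m) (T : Finset (Fin n)) (r : ℕ) (A M : Mat m) :
    slotA B T r A M = fun j : Fin m => (T.sort.map B ++ List.replicate r A).getD j M := by
  funext j
  unfold slotA
  by_cases h : (j : ℕ) < T.card
  · rw [dif_pos h, List.getD_append _ _ _ _ (by simpa using h),
      List.getD_eq_getElem _ _ (by simpa using h), List.getElem_map]
    rfl
  · rw [dif_neg h]
    have h' : (T.sort.map B).length ≤ j := by simpa using h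
    rw [List.getD_append_right _ _ _ _ h']
    by_cases h2 : (j : ℕ) < T.card + r
    · rw [if_pos h2, List.getD_eq_getElem _ _ (by simp; omega), List.getElem_replicate]
    · rw [if_neg h2, List.getD_eq_default _ _ (by simp; omega)]

theorem mD_congr_ms {m : ℕ} (v w : Fin m → Mat m) (h : ms v = ms w) : mD v = mD w := by
  obtain ⟨σ, hσ⟩ := exists_perm_of_ms v w h
  rw [← mD_perm w σ]
  congr 1
  funext i
  exact (hσ i).symm

theorem mD_perm_list {m : ℕ} {L L' : List (Mat m)} (M : Mat m) (h : L.Perm L') (hL : L.length ≤ m) :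
    mD (fun j : Fin m => L.getD j M) = mD (fun j : Fin m => L'.getD j M) := by
  refine mD_congr_ms _ _ ?_
  rw [ms_getD L M hL, ms_getD L' M (h.length_eq ▸ hL), Multiset.coe_eq_coe.2 h, h.length_eq]

theorem mD_scale {ι : Type*} {m : ℕ} (lam : ι → ℝ) (B : ι → Mat m) (l : List ι) (L : List (Mat m))
    (M : Mat m) (hl : l.length ≤ m) :
    mD (fun j : Fin m => (l.map (fun i => lam i • B i) ++ L).getD j M) =
      (l.map lam).prod * mD (fun j : Fin m => (l.map B ++ L).getD j M) := by
  have h1 : (fun j : Fin m => (l.map (fun i => lam i • B i) ++ L).getD j M) =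
      fun j : Fin m => ((l.map lam).getD j 1) • ((l.map B ++ L).getD j M) := by
    funext j
    by_cases h : (j : ℕ) < l.length
    · rw [List.getD_append _ _ _ _ (by simpa using h), List.getD_append _ _ _ _ (by simpa using h),
        List.getD_eq_getElem _ _ (by simpa using h), List.getD_eq_getElem _ _ (by simpa using h),
        List.getD_eq_getElem _ _ (by simpa using h), List.getElem_map, List.getElem_map,
        List.getElem_map]
    · rw [not_lt] at h
      rw [List.getD_append_right _ _ _ _ (by simpa using h),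
        List.getD_append_right _ _ _ _ (by simpa using h),
        List.getD_eq_default _ _ (by simpa using h : (l.map lam).length ≤ j), one_smul,
        List.length_map, List.length_map]
  rw [h1, mD_smul_univ]
  congr 1
  have h2 : ∏ j : Fin m, (l.map lam).getD j 1 = (ms (fun j : Fin m => (l.map lam).getD j 1)).prod := rfl
  rw [h2, ms_getD _ _ (by simpa using hl), Multiset.prod_add, Multiset.prod_coe,
    Multiset.prod_replicate, one_pow, mul_one]

theorem prod_sort {n : ℕ} (T : Finset (Fin n)) (lam : Fin n → ℝ) :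
    (T.sort.map lam).prod = ∏ i ∈ T, lam i := by
  rw [← Finset.prod_map_toList]
  exact ((Finset.sort_perm_toList T (· ≤ ·)).map lam).prod_eq

/-- the matrix as an element of `SymM`. -/
def toS {m n : ℕ} {B : Fin n → Mat m} (hB : Psd B) (i : Fin n) : SymM m :=
  ⟨B i, by
    have := (hB i).isHermitian
    ext a b
    have h := congrFun (congrFun this a) b
    simpa using h⟩

/-- the form of `∏ (1 + λ_i d_{B_i}) det`. -/
def MF {m n : ℕ} {B : Fin n → Mat m} (hB : Psd B) : Form (embI (embM m) (Fin n)) m :=
  mapF (detF m) (toS hB) (List.finRange n)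

theorem MF_hyp {m n : ℕ} {B : Fin n → Mat m} (hB : Psd B) :
    Hyp (MF hB) (oneM m, 0) ∧ rv (MF hB) (oneM m, 0) = 1 ∧
      (∀ p : SymM m × (Fin n → ℝ), p.1.1.PosDef → (∀ i, 0 ≤ p.2 i) →
        p ∈ Gam (MF hB) (oneM m, 0)) := by
  have h := mapF_hyp (detF_hyp m) (by rw [detF_one]; exact one_pos) (A := toS hB)
    (fun i => detF_psd _ (hB i)) (List.finRange n)
  refine ⟨h.1, by rw [← detF_one m]; exact h.2.1, fun p hp hp2 => h.2.2 p (detF_posDef _ hp) hp2⟩

theorem MF_psd {m n : ℕ} {B : Fin n → Mat m} (hB : Psd B) (p : SymM m × (Fin n → ℝ))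
    (hp : p.1.1.PosSemidef) (hp2 : ∀ i, 0 ≤ p.2 i) : p ∈ GamC (MF hB) (oneM m, 0) := by
  intro ε hε
  refine (MF_hyp hB).2.2 _ ?_ ?_
  · change (p.1.1 + ε • (1 : Mat m)).PosDef
    exact Matrix.PosDef.posSemidef_add hp (Matrix.PosDef.one.smul hε)
  · intro i
    simpa using hp2 i

/-- the mixed values of the form. -/
theorem MF_lst {m n : ℕ} {B : Fin n → Mat m} (hB : Psd B) (L : List (SymM m)) (hL : L.length ≤ m)
    (p : SymM m × (Fin n → ℝ)) :
    (MF hB).lstR (L.map fun A => (A, 0)) p = ∑ T : Finset (Fin n),
      (∏ i ∈ T, p.2 i) * ((m - L.length).descFactorial T.card : ℝ) *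
        mD (fun j : Fin m => (T.sort.map B ++ L.map Subtype.val).getD j p.1.1) := by
  have h : (((MF hB).lstR (L.map fun A => (A, 0)) p : ℝ) : ℂ) = ((∑ T : Finset (Fin n),
      (∏ i ∈ T, p.2 i) * ((m - L.length).descFactorial T.card : ℝ) *
        mD (fun j : Fin m => (T.sort.map B ++ L.map Subtype.val).getD j p.1.1) : ℝ) : ℂ) := by
    rw [Form.lstR_coe, List.map_map]
    have h1 : (L.map ((embI (embM m) (Fin n)).f ∘ fun A => (A, 0))) =
        ((L.map (embM m).f).map fun w => ((w, 0) : Matrix (Fin m) (Fin m) ℂ × (Fin n → ℂ))) := by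
      rw [List.map_map]
      refine List.map_congr_left fun A _ => ?_
      simp only [Function.comp]
      ext1
      · rfl
      · funext i
        exact Complex.ofReal_zero
    rw [h1]
    unfold MF
    rw [mapF_lst (detF m) (toS hB) (List.finRange n) (List.nodup_finRange n) _ (by simpa using hL),
      List.toFinset_finRange, Finset.powerset_univ]
    push_cast
    refine Finset.sum_congr rfl fun T _ => ?_
    rw [List.length_map]
    by_cases hT : m - L.length < T.card
    · rw [Nat.descFactorial_eq_zero_iff_lt.2 hT]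
      simp
    congr 1
    have h2 : ((T.toList.map fun i => (embM m).f (toS hB i)) ++ L.map (embM m).f) =
        ((T.toList.map (toS hB)) ++ L).map (embM m).f := by
      rw [List.map_append, List.map_map]
      rfl
    rw [h2]
    have h3 := (detF m).lstR_coe ((T.toList.map (toS hB)) ++ L) p.1
    have h4 : (detF m).lstR ((T.toList.map (toS hB)) ++ L) p.1 =
        mD (fun j : Fin m => (T.sort.map B ++ L.map Subtype.val).getD j p.1.1) := by
      unfold Form.lstR
      rw [detF_re]
      have h5 : (fun j : Fin m => (((T.toList.map (toS hB)) ++ L).getD j p.1).1) =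
          fun j : Fin m => ((T.toList.map B) ++ L.map Subtype.val).getD j p.1.1 := by
        funext j
        have h6 := List.getD_map ((T.toList.map (toS hB)) ++ L) p.1 (n := (j : ℕ))
          (Subtype.val : SymM m → Mat m)
        rw [← h6, List.map_append, List.map_map]
        rfl
      rw [h5]
      refine mD_perm_list _ ?_ ?_
      · exact List.Perm.append_right _ ((Finset.sort_perm_toList T (· ≤ ·)).map B).symm
      · rw [List.length_append, List.length_map, List.length_map, Finset.length_toList]
        omega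
    rw [← h4, h3]
    rfl
  exact_mod_cast h

theorem MF_rv {m n : ℕ} {B : Fin n → Mat m} (hB : Psd B) (p : SymM m × (Fin n → ℝ)) :
    rv (MF hB) p = Ph (sc p.2 B) p.1.1 := by
  have h := MF_lst hB [] (by simp) p
  have h0 : (MF hB).lstR ([].map fun A => (A, 0)) p = rv (MF hB) p := by
    unfold Form.lstR
    rw [← Form.re_const]
    congr 1
  rw [h0] at h
  rw [h]
  unfold Ph
  refine Finset.sum_congr rfl fun T _ => ?_
  rw [slot_eq]
  by_cases hT : m < T.card
  · rw [Nat.descFactorial_eq_zero_iff_lt.2 hT]
    simp [Nat.descFactorial_eq_zero_iff_lt.2 hT]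
  · have h1 := mD_scale p.2 B T.sort [] p.1.1 (by simpa using hT)
    rw [List.append_nil, List.append_nil] at h1
    have h2 : (T.sort.map (sc p.2 B)) = T.sort.map (fun i => p.2 i • B i) := rfl
    rw [h2, h1, prod_sort]
    simp only [List.length_nil, Nat.sub_zero, List.map_nil, List.append_nil]
    ring

theorem MF_dPh {m n : ℕ} {B : Fin n → Mat m} (hB : Psd B) (r : ℕ) (hr : r ≤ m) (A : SymM m)
    (p : SymM m × (Fin n → ℝ)) :
    dPh (sc p.2 B) r A.1 p.1.1 =
      (m.descFactorial r : ℝ) * (MF hB).lstR ((List.replicate r A).map fun A => (A, 0)) p := by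
  rw [MF_lst hB _ (by simpa using hr) p, Finset.mul_sum]
  unfold dPh
  refine Finset.sum_congr rfl fun T _ => ?_
  rw [slotA_eq, List.length_replicate, List.map_replicate]
  have h0 : (m - r).descFactorial T.card * m.descFactorial r = m.descFactorial (T.card + r) := by
    have := Nat.descFactorial_mul_descFactorial (n := m) (k := r) (m := T.card + r) (by omega)
    rw [← this]
    congr 2
    omega
  by_cases hT : m < T.card + r
  · have h1 : m - r < T.card := by omega
    rw [Nat.descFactorial_eq_zero_iff_lt.2 hT, Nat.descFactorial_eq_zero_iff_lt.2 h1]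
    simp
  · have h1 := mD_scale p.2 B T.sort (List.replicate r A.1) p.1.1 (by simp; omega)
    have h2 : (T.sort.map (sc p.2 B)) = T.sort.map (fun i => p.2 i • B i) := rfl
    rw [h2, h1, prod_sort, ← h0]
    push_cast
    ring

end GTH
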