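import Mathlib

/-!
# Garding theory of hyperbolic forms

A symmetric complex multilinear form `B` on `W` which is real on (the image of) a real space `V`.
-/

set_option autoImplicit false

open Polynomial Set Filter Topology

noncomputable section

namespace GTH

/-- a real structure: an `ℝ`-linear map from a real space to a complex space. -/
structure Emb (V W : Type*) [AddCommGroup V] [Module ℝ V] [AddCommGroup W] [Module ℂ W] where
  f : V → W
  add : ∀ x y, f (x + y) = f x + f y
  smul : ∀ (r : ℝ) (x : V), f (r • x) = (r : ℂ) • f x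

variable {V W : Type*} [AddCommGroup V] [Module ℝ V] [AddCommGroup W] [Module ℂ W]

/-- a symmetric multilinear form, real on the image of `V`. -/
structure Form (e : Emb V W) (s : ℕ) where
  B : MultilinearMap ℂ (fun _ : Fin s => W) ℂ
  symm : ∀ (σ : Equiv.Perm (Fin s)) (v : Fin s → W), B (fun i => v (σ i)) = B v
  real : ∀ v : Fin s → V, (B (fun i => e.f (v i))).im = 0

/-- the associated homogeneous function. -/
def dg {s : ℕ} (B : MultilinearMap ℂ (fun _ : Fin s => W) ℂ) (z : W) : ℂ := B (fun _ => z)

theorem dg_smul {s : ℕ} (B : MultilinearMap ℂ (fun _ : Fin s => W) ℂ) (c : ℂ) (z : W) :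
    dg B (c • z) = c ^ s * dg B z := by
  unfold dg
  have h := B.map_smul_univ (fun _ => c) (fun _ => z)
  simpa using h

theorem dg_cont {s r : ℕ} (B : MultilinearMap ℂ (fun _ : Fin s => W) ℂ) (v : Fin r → W) :
    Continuous fun c : Fin r → ℂ => dg B (∑ j, c j • v j) := by
  unfold dg
  have h : ∀ c : Fin r → ℂ, B (fun _ => ∑ j, c j • v j) =
      ∑ g : Fin s → Fin r, (∏ i, c (g i)) • B (fun i => v (g i)) := by
    intro c
    rw [MultilinearMap.map_sum]
    refine Finset.sum_congr rfl fun g _ => ?_
    exact B.map_smul_univ (fun i => c (g i)) (fun i => v (g i))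
  simp_rw [h]
  refine continuous_finsetSum _ fun g _ => ?_
  simp only [smul_eq_mul]
  refine Continuous.mul ?_ continuous_const
  exact continuous_finsetProd _ fun i _ => continuous_apply (g i)

/-- the polynomial `z ↦ B (u + z a)`. -/
def pol {s : ℕ} (B : MultilinearMap ℂ (fun _ : Fin s => W) ℂ) (u a : W) : ℂ[X] :=
  ∑ S : Finset (Fin s), monomial S.card (B (fun i => if i ∈ S then a else u))

theorem pol_eval {s : ℕ} (B : MultilinearMap ℂ (fun _ : Fin s => W) ℂ) (u a : W) (z : ℂ) :
    (pol B u a).eval z = dg B (u + z • a) := by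
  unfold pol dg
  rw [eval_finsetSum]
  have h1 : (fun _ : Fin s => u + z • a) = (fun _ => z • a) + (fun _ => u) := by
    funext i
    simp [add_comm]
  rw [h1, MultilinearMap.map_add_univ]
  refine Finset.sum_congr rfl fun S _ => ?_
  rw [eval_monomial]
  have h2 := B.map_piecewise_smul (fun _ => z) (fun i => if i ∈ S then a else u) S
  have h3 : (S.piecewise (fun i => (fun _ => z) i • (fun i => if i ∈ S then a else u) i)
      (fun i => if i ∈ S then a else u)) = S.piecewise (fun _ => z • a) (fun _ => u) := by
    funext i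
    by_cases hi : i ∈ S
    · simp [hi]
    · simp [hi]
  rw [h3] at h2
  rw [h2]
  simp [mul_comm]

theorem pol_natDegree {s : ℕ} (B : MultilinearMap ℂ (fun _ : Fin s => W) ℂ) (u a : W) :
    (pol B u a).natDegree ≤ s := by
  unfold pol
  refine natDegree_sum_le_of_forall_le _ _ fun S _ => ?_
  refine (natDegree_monomial_le _).trans ?_
  simpa using Finset.card_le_univ S

theorem pol_coeff {s : ℕ} (B : MultilinearMap ℂ (fun _ : Fin s => W) ℂ) (u a : W) (j : ℕ) :
    (pol B u a).coeff j = ∑ S : Finset (Fin s), if S.card = j then B (fun i => if i ∈ S then a else u) else 0 := by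
  unfold pol
  rw [finsetSum_coeff]
  refine Finset.sum_congr rfl fun S _ => ?_
  rw [coeff_monomial]

theorem pol_coeff_top {s : ℕ} (B : MultilinearMap ℂ (fun _ : Fin s => W) ℂ) (u a : W) :
    (pol B u a).coeff s = dg B a := by
  rw [pol_coeff, Finset.sum_eq_single (Finset.univ : Finset (Fin s))]
  · simp [dg]
  · intro S _ hS
    rw [if_neg]
    intro h
    exact hS ((Finset.card_eq_iff_eq_univ S).1 (by simpa using h))
  · intro h
    exact absurd (Finset.mem_univ _) h

theorem pol_deg {s : ℕ} (B : MultilinearMap ℂ (fun _ : Fin s => W) ℂ) (u a : W) (ha : dg B a ≠ 0) :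
    (pol B u a).natDegree = s := by
  apply le_antisymm (pol_natDegree B u a)
  apply le_natDegree_of_ne_zero
  rwa [pol_coeff_top]

theorem pol_lc {s : ℕ} (B : MultilinearMap ℂ (fun _ : Fin s => W) ℂ) (u a : W) (ha : dg B a ≠ 0) :
    (pol B u a).leadingCoeff = dg B a := by
  rw [leadingCoeff, pol_deg B u a ha, pol_coeff_top]

theorem pol_coeff_one {s : ℕ} {e : Emb V W} (F : Form e (s + 1)) (u a : W) :
    (pol F.B u a).coeff 1 = (s + 1) * F.B (Fin.cons a (fun _ => u)) := by
  rw [pol_coeff, ← Finset.sum_filter]
  have h1 : (Finset.univ.filter fun S : Finset (Fin (s + 1)) => S.card = 1) =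
      Finset.univ.image (fun i : Fin (s + 1) => ({i} : Finset (Fin (s + 1)))) := by
    ext S
    simp only [Finset.mem_filter, Finset.mem_univ, true_and, Finset.mem_image]
    rw [Finset.card_eq_one]
    constructor
    · rintro ⟨a, ha⟩
      exact ⟨a, ha.symm⟩
    · rintro ⟨a, ha⟩
      exact ⟨a, ha.symm⟩
  rw [h1, Finset.sum_image (fun i _ j _ h => Finset.singleton_injective h)]
  have h2 : ∀ i : Fin (s + 1), F.B (fun j => if j ∈ ({i} : Finset (Fin (s + 1))) then a else u) =
      F.B (Fin.cons a (fun _ => u)) := by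
    intro i
    rw [← F.symm (Equiv.swap 0 i) (Fin.cons a (fun _ => u))]
    congr 1
    funext j
    simp only [Finset.mem_singleton]
    by_cases hj : j = i
    · subst hj
      simp
    · rw [if_neg hj]
      by_cases hj0 : j = 0
      · subst hj0
        rw [Equiv.swap_apply_left]
        obtain ⟨i', rfl⟩ := Fin.exists_succ_eq.2 (fun h => hj h.symm)
        simp
      · rw [Equiv.swap_apply_of_ne_of_ne hj0 hj]
        obtain ⟨j', rfl⟩ := Fin.exists_succ_eq.2 hj0
        simp
  rw [Finset.sum_congr rfl (fun i _ => h2 i)]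
  simp

end GTH
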