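import Pool.Agent.helper44.SC.Gard

/-!
# Garding theory: the cone
-/

set_option autoImplicit false

open Polynomial Set Filter Topology

noncomputable section

namespace GTH

variable {V W : Type*} [AddCommGroup V] [Module ℝ V] [AddCommGroup W] [Module ℂ W]

theorem dg_cont3 {s : ℕ} (B : MultilinearMap ℂ (fun _ : Fin s => W) ℂ) (u v w : W) :
    Continuous fun c : ℂ × ℂ × ℂ => dg B (c.1 • u + c.2.1 • v + c.2.2 • w) := by
  have h := dg_cont B ![u, v, w]
  have h2 : Continuous fun c : ℂ × ℂ × ℂ => (![c.1, c.2.1, c.2.2] : Fin 3 → ℂ) := by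
    refine continuous_pi fun i => ?_
    fin_cases i
    · exact continuous_fst
    · exact continuous_fst.comp continuous_snd
    · exact continuous_snd.comp continuous_snd
  have h3 := h.comp h2
  refine h3.congr fun c => ?_
  simp [Fin.sum_univ_three, Function.comp]

/-- a continuity argument. -/
theorem homotopy {G : ℝ → ℂ → ℂ} {S : Set ℂ} (hS : IsClosed S)
    (hG : Continuous (fun p : ℝ × ℂ => G p.1 p.2)) (R : ℝ)
    (hR : ∀ l ∈ Icc (0:ℝ) 1, ∀ z ∈ S, G l z = 0 → ‖z‖ ≤ R)
    (hstep : ∀ l, 0 ≤ l → l ≤ 1 → (∀ l', 0 ≤ l' → l' < l → ∀ z ∈ S, G l' z ≠ 0) →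
      ∀ z ∈ S, G l z ≠ 0) : ∀ l ∈ Icc (0:ℝ) 1, ∀ z ∈ S, G l z ≠ 0 := by
  by_contra hcon
  push Not at hcon
  obtain ⟨l₀, hl₀, z₀, hz₀, h₀⟩ := hcon
  set K : Set (ℝ × ℂ) := (Icc (0:ℝ) 1 ×ˢ Metric.closedBall (0:ℂ) R) ∩ {p | p.2 ∈ S} ∩ {p | G p.1 p.2 = 0} with hK
  have hKc : IsCompact K := by
    refine ((isCompact_Icc.prod (isCompact_closedBall 0 R)).inter_right ?_).inter_right ?_
    · exact hS.preimage continuous_snd
    · exact isClosed_eq hG continuous_const
  have hne : K.Nonempty := by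
    refine ⟨(l₀, z₀), ⟨⟨hl₀, ?_⟩, hz₀⟩, h₀⟩
    simpa using hR l₀ hl₀ z₀ hz₀ h₀
  obtain ⟨p, hp, hmin⟩ := hKc.exists_isMinOn hne continuous_fst.continuousOn
  refine hstep p.1 hp.1.1.1.1 hp.1.1.1.2 ?_ p.2 hp.1.2 hp.2
  intro l' hl' hlt z hz hGz
  have hl1 : l' ∈ Icc (0:ℝ) 1 := ⟨hl', hlt.le.trans hp.1.1.1.2⟩
  have hmem : (l', z) ∈ K := ⟨⟨⟨hl1, by simpa using hR l' hl1 z hz hGz⟩, hz⟩, hGz⟩
  have := hmin hmem
  simp only [mem_ofPred_eq] at this
  exact absurd this (not_le.2 hlt)

theorem bdd_zeros {s : ℕ} (B : MultilinearMap ℂ (fun _ : Fin s => W) ℂ) (u v a : W)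
    (ha : dg B a ≠ 0) (f g : ℝ → ℂ) (hf : Continuous f) (hg : Continuous g) :
    ∃ R : ℝ, ∀ l ∈ Icc (0:ℝ) 1, ∀ z : ℂ, dg B (f l • u + g l • v + z • a) = 0 → ‖z‖ ≤ R := by
  have hc : Continuous fun p : ℂ × ℝ => dg B ((p.1 * f p.2) • u + (p.1 * g p.2) • v + (1 : ℂ) • a) := by
    have h := dg_cont3 B u v a
    have h2 : Continuous fun p : ℂ × ℝ => ((p.1 * f p.2, p.1 * g p.2, (1 : ℂ)) : ℂ × ℂ × ℂ) := by
      fun_prop
    exact h.comp h2
  have h1 : ∀ᶠ w in 𝓝 (0:ℂ), ∀ l ∈ Icc (0:ℝ) 1,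
      dg B ((w * f l) • u + (w * g l) • v + (1 : ℂ) • a) ≠ 0 := by
    refine isCompact_Icc.eventually_forall_of_forall_eventually ?_
    intro l _
    have h3 : dg B (((0:ℂ) * f l) • u + ((0:ℂ) * g l) • v + (1 : ℂ) • a) ≠ 0 := by
      simpa using ha
    exact hc.continuousAt.eventually_ne h3
  rw [Metric.eventually_nhds_iff] at h1
  obtain ⟨δ, hδ, h1⟩ := h1
  refine ⟨1 / δ, fun l hl z hz => ?_⟩
  by_contra hcon
  rw [not_le] at hcon
  have hz0 : z ≠ 0 := by
    rintro rfl
    rw [norm_zero] at hcon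
    exact absurd hcon (not_lt.2 (by positivity))
  have h2 : dist z⁻¹ 0 < δ := by
    rw [dist_zero_right, norm_inv]
    rw [one_div] at hcon
    exact inv_lt_of_inv_lt₀ hδ hcon
  have h3 := h1 h2 l hl
  apply h3
  have h4 : (z⁻¹ * f l) • u + (z⁻¹ * g l) • v + (1 : ℂ) • a = z⁻¹ • (f l • u + g l • v + z • a) := by
    rw [smul_add, smul_add, smul_smul, smul_smul, smul_smul, inv_mul_cancel₀ hz0]
  rw [h4, dg_smul, hz, mul_zero]

theorem prod_lower (m : Multiset ℂ) (z : ℂ) (c : ℝ) (hc : 0 ≤ c) (h : ∀ r ∈ m, c ≤ ‖z - r‖) :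
    c ^ (Multiset.card m) ≤ ‖(m.map (z - ·)).prod‖ := by
  induction m using Multiset.induction with
  | empty => simp
  | cons a m ih =>
    rw [Multiset.card_cons, Multiset.map_cons, Multiset.prod_cons, norm_mul, pow_succ, mul_comm]
    exact mul_le_mul (h a (Multiset.mem_cons_self a m))
      (ih fun r hr => h r (Multiset.mem_cons_of_mem hr)) (by positivity) (norm_nonneg _)

theorem lower_gen {s : ℕ} (B : MultilinearMap ℂ (fun _ : Fin s => W) ℂ) (u a : W) (z : ℂ) (c : ℝ)
    (hc : 0 ≤ c) (h : ∀ r : ℂ, dg B (u + r • a) = 0 → c ≤ ‖z - r‖) :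
    ‖dg B a‖ * c ^ s ≤ ‖dg B (u + z • a)‖ := by
  by_cases ha : dg B a = 0
  · rw [ha, norm_zero, zero_mul]
    exact norm_nonneg _
  have hs : (pol B u a).Splits := IsAlgClosed.splits _
  have h1 := hs.eval_eq_prod_roots z
  rw [pol_eval, pol_lc B u a ha] at h1
  rw [h1, norm_mul]
  refine mul_le_mul_of_nonneg_left ?_ (norm_nonneg _)
  have h2 : Multiset.card (pol B u a).roots = s := by
    rw [← hs.natDegree_eq_card_roots, pol_deg B u a ha]
  have h3 := prod_lower (pol B u a).roots z c hc (fun r hr => h r ?_)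
  · rwa [h2] at h3
  · rw [← pol_eval]
    exact isRoot_of_mem_roots hr

theorem lower {s : ℕ} (B : MultilinearMap ℂ (fun _ : Fin s => W) ℂ) (u a : W)
    (h : ∀ z : ℂ, 0 ≤ z.im → dg B (u + z • a) ≠ 0) (z : ℂ) (hz : 0 ≤ z.im) :
    ‖dg B a‖ * z.im ^ s ≤ ‖dg B (u + z • a)‖ := by
  refine lower_gen B u a z z.im hz fun r hr => ?_
  have h1 : r.im < 0 := by
    by_contra hcon
    exact h r (not_lt.1 hcon) hr
  have h2 : |(z - r).im| ≤ ‖z - r‖ := Complex.abs_im_le_norm _
  rw [Complex.sub_im] at h2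
  have h3 := le_abs_self (z.im - r.im)
  linarith

/-- hyperbolicity with respect to `E`. -/
def Hyp {e : Emb V W} {s : ℕ} (F : Form e s) (E : V) : Prop :=
  ∀ (x : V) (z : ℂ), 0 < z.im → dg F.B (e.f x + z • e.f E) ≠ 0

/-- the open cone of `F`. -/
def Gam {e : Emb V W} {s : ℕ} (F : Form e s) (E : V) : Set V :=
  {a | ∀ t : ℝ, 0 ≤ t → dg F.B (e.f a + (t : ℂ) • e.f E) ≠ 0}

theorem dg_conj {e : Emb V W} {s : ℕ} (F : Form e s) (x a : V) (z : ℂ) :
    dg F.B (e.f x + (starRingEnd ℂ z) • e.f a) = starRingEnd ℂ (dg F.B (e.f x + z • e.f a)) := by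
  rw [← pol_eval, ← pol_eval]
  unfold pol
  rw [eval_finsetSum, eval_finsetSum, map_sum]
  refine Finset.sum_congr rfl fun S _ => ?_
  rw [eval_monomial, eval_monomial, map_mul, map_pow]
  congr 1
  symm
  rw [Complex.conj_eq_iff_im]
  have := F.real (fun i => if i ∈ S then a else x)
  rw [← this]
  congr 2
  funext i
  split_ifs <;> rfl

theorem Emb.map_zero (e : Emb V W) : e.f 0 = 0 := by
  have := e.smul 0 0
  simpa using this

theorem Hyp.ne {e : Emb V W} {s : ℕ} {F : Form e s} {E : V} (h : Hyp F E) (x : V) (z : ℂ)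
    (hz : z.im ≠ 0) : dg F.B (e.f x + z • e.f E) ≠ 0 := by
  rcases lt_or_gt_of_ne hz with h1 | h1
  · intro h2
    have h3 := h x (starRingEnd ℂ z) (by rw [Complex.conj_im]; linarith)
    rw [dg_conj, h2, map_zero] at h3
    exact h3 rfl
  · exact h x z h1

theorem Hyp.self {e : Emb V W} {s : ℕ} {F : Form e s} {E : V} (h : Hyp F E) :
    dg F.B (e.f E) ≠ 0 := by
  have h1 := h 0 Complex.I (by simp)
  rw [e.map_zero, zero_add, dg_smul] at h1
  exact right_ne_zero_of_mul h1

theorem Gam.self {e : Emb V W} {s : ℕ} {F : Form e s} {E a : V} (h : a ∈ Gam F E) :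
    dg F.B (e.f a) ≠ 0 := by
  have := h 0 le_rfl
  simpa using this

theorem Hyp.mem {e : Emb V W} {s : ℕ} {F : Form e s} {E : V} (h : Hyp F E) : E ∈ Gam F E := by
  intro t ht
  have h1 : e.f E + (t : ℂ) • e.f E = ((1 + t : ℝ) : ℂ) • e.f E := by
    push_cast
    rw [add_smul, one_smul]
  rw [h1, dg_smul]
  refine mul_ne_zero (pow_ne_zero _ ?_) h.self
  exact_mod_cast (by linarith : (1 + t : ℝ) ≠ 0)

theorem Gam.add {e : Emb V W} {s : ℕ} {F : Form e s} {E a : V} (h : a ∈ Gam F E) {t : ℝ}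
    (ht : 0 ≤ t) : a + t • E ∈ Gam F E := by
  intro r hr
  have h1 := h (t + r) (by linarith)
  rw [e.add, e.smul, add_assoc, ← add_smul]
  push_cast at h1
  exact h1

theorem Gam.smul {e : Emb V W} {s : ℕ} {F : Form e s} {E a : V} (h : a ∈ Gam F E) {t : ℝ}
    (ht : 0 < t) : t • a ∈ Gam F E := by
  intro r hr
  have h1 := h (r / t) (by positivity)
  have htc : (t : ℂ) ≠ 0 := by exact_mod_cast ht.ne'
  have h2 : e.f (t • a) + (r : ℂ) • e.f E = (t : ℂ) • (e.f a + ((r / t : ℝ) : ℂ) • e.f E) := by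
    rw [e.smul, smul_add, smul_smul]
    congr 2
    push_cast
    field_simp
  rw [h2, dg_smul]
  exact mul_ne_zero (pow_ne_zero _ htc) h1

/-- **change of direction.** -/
theorem Hyp.change {e : Emb V W} {s : ℕ} {F : Form e s} {E a : V} (h : Hyp F E)
    (ha : a ∈ Gam F E) : Hyp F a := by
  have hda : dg F.B (e.f a) ≠ 0 := Gam.self ha
  have key : ∀ (x : V) (σ : ℝ), 0 < σ → ∀ z : ℂ, 0 ≤ z.im →
      dg F.B (e.f x + (σ * Complex.I) • e.f E + z • e.f a) ≠ 0 := by
    intro x σ hσ
    obtain ⟨R, hR⟩ := bdd_zeros F.B (e.f x) (e.f E) (e.f a) hda (fun l => (l : ℂ))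
      (fun _ => (σ : ℂ) * Complex.I) (by fun_prop) (by fun_prop)
    have hG : Continuous (fun p : ℝ × ℂ =>
        dg F.B ((p.1 : ℂ) • e.f x + ((σ : ℂ) * Complex.I) • e.f E + p.2 • e.f a)) := by
      have h1 := dg_cont3 F.B (e.f x) (e.f E) (e.f a)
      have h2 : Continuous fun p : ℝ × ℂ => (((p.1 : ℂ), (σ : ℂ) * Complex.I, p.2) : ℂ × ℂ × ℂ) := by
        fun_prop
      exact h1.comp h2
    have hS : IsClosed {z : ℂ | 0 ≤ z.im} := isClosed_le continuous_const Complex.continuous_im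
    have := homotopy (G := fun l z => dg F.B ((l : ℂ) • e.f x + ((σ : ℂ) * Complex.I) • e.f E + z • e.f a))
      hS hG R (fun l hl z _ hz => hR l hl z hz) ?_ 1 (by simp)
    · intro z hz
      simpa using this z hz
    · intro l hl hl1 hprev z hz
      have hz' : 0 ≤ z.im := hz
      rcases hl.eq_or_lt with h0 | h0
      · subst h0
        simp only [Complex.ofReal_zero, zero_smul, zero_add]
        by_cases hz0 : z = 0
        · subst hz0
          rw [zero_smul, add_zero, dg_smul]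
          refine mul_ne_zero (pow_ne_zero _ (mul_ne_zero ?_ Complex.I_ne_zero)) h.self
          exact_mod_cast hσ.ne'
        · have h1 : ((σ : ℂ) * Complex.I) • e.f E + z • e.f a =
              z • (e.f a + ((σ : ℂ) * Complex.I / z) • e.f E) := by
            rw [smul_add, smul_smul, mul_div_cancel₀ _ hz0, add_comm]
          rw [h1, dg_smul]
          refine mul_ne_zero (pow_ne_zero _ hz0) ?_
          by_cases him : ((σ : ℂ) * Complex.I / z).im = 0
          · have hre : 0 ≤ ((σ : ℂ) * Complex.I / z).re := by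
              rw [Complex.div_re]
              simp only [Complex.mul_re, Complex.ofReal_re, Complex.I_re, mul_zero,
                Complex.ofReal_im, Complex.I_im, mul_one, sub_self, zero_mul, zero_div,
                Complex.mul_im, add_zero, zero_add]
              have := Complex.normSq_nonneg z
              positivity
            have h2 : (σ : ℂ) * Complex.I / z = ((((σ : ℂ) * Complex.I / z).re : ℝ) : ℂ) := by
              apply Complex.ext
              · simp
              · simpa using him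
            rw [h2]
            exact ha _ hre
          · exact h.ne a _ him
      · by_cases hzr : z.im = 0
        · have h2 : (l : ℂ) • e.f x + ((σ : ℂ) * Complex.I) • e.f E + z • e.f a =
              e.f (l • x + z.re • a) + ((σ : ℂ) * Complex.I) • e.f E := by
            have hzz : z = ((z.re : ℝ) : ℂ) := by
              apply Complex.ext
              · simp
              · simpa using hzr
            rw [e.add, e.smul, e.smul, ← hzz]
            abel
          rw [h2]
          exact h _ _ (by simpa using hσ)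
        · have hzpos : 0 < z.im := lt_of_le_of_ne hz' (Ne.symm hzr)
          have hb : ∀ l' : ℝ, 0 ≤ l' → l' < l → ‖dg F.B (e.f a)‖ * z.im ^ s ≤
              ‖dg F.B ((l' : ℂ) • e.f x + ((σ : ℂ) * Complex.I) • e.f E + z • e.f a)‖ := by
            intro l' hl' hlt
            exact lower F.B _ (e.f a) (fun w hw => hprev l' hl' hlt w hw) z hz'
          have hlim : Tendsto (fun l' : ℝ =>
              ‖dg F.B ((l' : ℂ) • e.f x + ((σ : ℂ) * Complex.I) • e.f E + z • e.f a)‖)
              (𝓝[<] l) (𝓝 ‖dg F.B ((l : ℂ) • e.f x + ((σ : ℂ) * Complex.I) • e.f E + z • e.f a)‖) := by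
            have h3 : Continuous fun l' : ℝ =>
                ‖dg F.B ((l' : ℂ) • e.f x + ((σ : ℂ) * Complex.I) • e.f E + z • e.f a)‖ :=
              (hG.comp (by fun_prop : Continuous fun l' : ℝ => (l', z))).norm
            exact (h3.tendsto l).mono_left nhdsWithin_le_nhds
          have h4 : ‖dg F.B (e.f a)‖ * z.im ^ s ≤
              ‖dg F.B ((l : ℂ) • e.f x + ((σ : ℂ) * Complex.I) • e.f E + z • e.f a)‖ := by
            refine ge_of_tendsto hlim ?_
            have h5 : ∀ᶠ l' : ℝ in 𝓝[<] l, 0 < l' :=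
              (eventually_gt_nhds h0).filter_mono nhdsWithin_le_nhds
            filter_upwards [h5, self_mem_nhdsWithin] with l' h6 h7
            exact hb l' h6.le h7
          intro h5
          rw [h5, norm_zero] at h4
          have h6 : 0 < ‖dg F.B (e.f a)‖ * z.im ^ s := by
            have := norm_pos_iff.2 hda
            positivity
          linarith
  intro x z hz
  have hb : ∀ σ : ℝ, 0 < σ → ‖dg F.B (e.f a)‖ * z.im ^ s ≤
      ‖dg F.B (e.f x + ((σ : ℂ) * Complex.I) • e.f E + z • e.f a)‖ := by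
    intro σ hσ
    exact lower F.B _ (e.f a) (fun w hw => key x σ hσ w hw) z hz.le
  have hlim : Tendsto (fun σ : ℝ =>
      ‖dg F.B (e.f x + ((σ : ℂ) * Complex.I) • e.f E + z • e.f a)‖)
      (𝓝[>] 0) (𝓝 ‖dg F.B (e.f x + (((0 : ℝ) : ℂ) * Complex.I) • e.f E + z • e.f a)‖) := by
    have h1 := dg_cont3 F.B (e.f x) (e.f E) (e.f a)
    have h2 : Continuous fun σ : ℝ => (((1 : ℂ), (σ : ℂ) * Complex.I, z) : ℂ × ℂ × ℂ) := by
      fun_prop
    have h3 := (h1.comp h2).norm
    simp only [Function.comp, one_smul] at h3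
    exact (h3.tendsto 0).mono_left nhdsWithin_le_nhds
  have h4 : ‖dg F.B (e.f a)‖ * z.im ^ s ≤
      ‖dg F.B (e.f x + (((0 : ℝ) : ℂ) * Complex.I) • e.f E + z • e.f a)‖ := by
    refine ge_of_tendsto hlim ?_
    filter_upwards [self_mem_nhdsWithin] with σ hσ
    exact hb σ hσ
  intro h5
  simp only [Complex.ofReal_zero, zero_mul, zero_smul, add_zero] at h4
  rw [h5, norm_zero] at h4
  have h6 : 0 < ‖dg F.B (e.f a)‖ * z.im ^ s := by
    have := norm_pos_iff.2 hda
    positivity
  linarith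

/-- for `c, b` in the open cone, `c` is in the open cone with respect to `b`. -/
theorem Gam.rel {e : Emb V W} {s : ℕ} {F : Form e s} {E a b : V} (h : Hyp F E)
    (ha : a ∈ Gam F E) (hb : b ∈ Gam F E) : a ∈ Gam F b := by
  have hHb : Hyp F b := h.change hb
  have hdb : dg F.B (e.f b) ≠ 0 := Gam.self hb
  obtain ⟨R, hR⟩ := bdd_zeros F.B (e.f E) (e.f a) (e.f b) hdb (fun l => ((1 - l : ℝ) : ℂ))
    (fun l => (l : ℂ)) (by fun_prop) (by fun_prop)
  have hG : Continuous (fun p : ℝ × ℂ =>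
      dg F.B (((1 - p.1 : ℝ) : ℂ) • e.f E + (p.1 : ℂ) • e.f a + p.2 • e.f b)) := by
    have h1 := dg_cont3 F.B (e.f E) (e.f a) (e.f b)
    have h2 : Continuous fun p : ℝ × ℂ => ((((1 - p.1 : ℝ) : ℂ), (p.1 : ℂ), p.2) : ℂ × ℂ × ℂ) := by
      fun_prop
    exact h1.comp h2
  have hS : IsClosed {z : ℂ | 0 ≤ z.re ∧ z.im = 0} :=
    (isClosed_le continuous_const Complex.continuous_re).inter
      (isClosed_eq Complex.continuous_im continuous_const)
  have := homotopy (G := fun l z => dg F.B (((1 - l : ℝ) : ℂ) • e.f E + (l : ℂ) • e.f a + z • e.f b))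
    hS hG R (fun l hl z _ hz => hR l hl z hz) ?_ 1 (by simp)
  · intro t ht
    have h1 := this (t : ℂ) ⟨by simpa using ht, by simp⟩
    simpa using h1
  · intro l hl hl1 hprev z hz
    obtain ⟨hz1, hz2⟩ := hz
    have hzz : z = ((z.re : ℝ) : ℂ) := by
      apply Complex.ext
      · simp
      · simpa using hz2
    rcases hl.eq_or_lt with h0 | h0
    · subst h0
      simp only [Complex.ofReal_zero, zero_smul, sub_zero, Complex.ofReal_one, one_smul, add_zero]
      rcases hz1.eq_or_lt with h1 | h1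
      · rw [hzz, ← h1]
        simpa using h.self
      · have hzc : z ≠ 0 := by
          rw [hzz]
          exact_mod_cast h1.ne'
        have h2 : e.f E + z • e.f b = z • (e.f b + ((1 / z.re : ℝ) : ℂ) • e.f E) := by
          rw [smul_add, smul_smul, add_comm]
          congr 1
          rw [Complex.ofReal_div, ← hzz, Complex.ofReal_one, mul_one_div_cancel hzc, one_smul]
        rw [h2, dg_smul]
        exact mul_ne_zero (pow_ne_zero _ hzc) (hb _ (by positivity))
    · rcases hz1.eq_or_lt with h1 | h1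
      · have hlc : (l : ℂ) ≠ 0 := by exact_mod_cast h0.ne'
        have h2 : ((1 - l : ℝ) : ℂ) • e.f E + (l : ℂ) • e.f a + z • e.f b =
            (l : ℂ) • (e.f a + (((1 - l) / l : ℝ) : ℂ) • e.f E) := by
          rw [hzz, ← h1, Complex.ofReal_zero, zero_smul, add_zero, smul_add, smul_smul, add_comm]
          congr 2
          push_cast
          field_simp
        rw [h2, dg_smul]
        refine mul_ne_zero (pow_ne_zero _ hlc) (ha _ ?_)
        exact div_nonneg (by linarith) hl
      · have hb' : ∀ l' : ℝ, 0 ≤ l' → l' < l → ‖dg F.B (e.f b)‖ * z.re ^ s ≤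
            ‖dg F.B (((1 - l' : ℝ) : ℂ) • e.f E + (l' : ℂ) • e.f a + z • e.f b)‖ := by
          intro l' hl' hlt
          refine lower_gen F.B _ (e.f b) z z.re hz1 fun r hr => ?_
          have h3 : ((1 - l' : ℝ) : ℂ) • e.f E + (l' : ℂ) • e.f a = e.f ((1 - l') • E + l' • a) := by
            rw [e.add, e.smul, e.smul]
          have hrim : r.im = 0 := by
            by_contra hcon
            rw [h3] at hr
            exact hHb.ne _ r hcon hr
          have hrre : r.re < 0 := by
            by_contra hcon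
            exact hprev l' hl' hlt r ⟨not_lt.1 hcon, hrim⟩ hr
          have h4 : |(z - r).re| ≤ ‖z - r‖ := Complex.abs_re_le_norm _
          rw [Complex.sub_re] at h4
          have h5 := le_abs_self (z.re - r.re)
          linarith
        have hlim : Tendsto (fun l' : ℝ =>
            ‖dg F.B (((1 - l' : ℝ) : ℂ) • e.f E + (l' : ℂ) • e.f a + z • e.f b)‖)
            (𝓝[<] l) (𝓝 ‖dg F.B (((1 - l : ℝ) : ℂ) • e.f E + (l : ℂ) • e.f a + z • e.f b)‖) := by
          have h3 : Continuous fun l' : ℝ =>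
              ‖dg F.B (((1 - l' : ℝ) : ℂ) • e.f E + (l' : ℂ) • e.f a + z • e.f b)‖ :=
            (hG.comp (by fun_prop : Continuous fun l' : ℝ => (l', z))).norm
          exact (h3.tendsto l).mono_left nhdsWithin_le_nhds
        have h4 : ‖dg F.B (e.f b)‖ * z.re ^ s ≤
            ‖dg F.B (((1 - l : ℝ) : ℂ) • e.f E + (l : ℂ) • e.f a + z • e.f b)‖ := by
          refine ge_of_tendsto hlim ?_
          have h5 : ∀ᶠ l' : ℝ in 𝓝[<] l, 0 < l' :=
            (eventually_gt_nhds h0).filter_mono nhdsWithin_le_nhds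
          filter_upwards [h5, self_mem_nhdsWithin] with l' h6 h7
          exact hb' l' h6.le h7
        intro h5
        rw [h5, norm_zero] at h4
        have h6 : 0 < ‖dg F.B (e.f b)‖ * z.re ^ s := by
          have := norm_pos_iff.2 hdb
          positivity
        linarith

/-- the open cone is a convex cone. -/
theorem Gam.comb {e : Emb V W} {s : ℕ} {F : Form e s} {E a b : V} (h : Hyp F E)
    (ha : a ∈ Gam F E) (hb : b ∈ Gam F E) {p q : ℝ} (hp : 0 < p) (hq : 0 ≤ q) :
    p • a + q • b ∈ Gam F E := by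
  rcases hq.eq_or_lt with h0 | h0
  · rw [← h0, zero_smul, add_zero]
    exact Gam.smul ha hp
  intro t ht
  have hb' : b + (t / q) • E ∈ Gam F E := Gam.add hb (by positivity)
  have h1 := Gam.rel h ha hb' (q / p) (by positivity)
  have hpc : (p : ℂ) ≠ 0 := by exact_mod_cast hp.ne'
  have hqc : (q : ℂ) ≠ 0 := by exact_mod_cast h0.ne'
  have h2 : e.f (p • a + q • b) + (t : ℂ) • e.f E =
      (p : ℂ) • (e.f a + ((q / p : ℝ) : ℂ) • e.f (b + (t / q) • E)) := by
    rw [e.add, e.add, e.smul, e.smul, e.smul, smul_add, smul_smul, smul_add, smul_smul, add_assoc]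
    push_cast
    congr 2
    · congr 1
      field_simp
    · congr 1
      field_simp
  rw [h2, dg_smul]
  exact mul_ne_zero (pow_ne_zero _ hpc) h1

theorem Gam.add' {e : Emb V W} {s : ℕ} {F : Form e s} {E a b : V} (h : Hyp F E)
    (ha : a ∈ Gam F E) (hb : b ∈ Gam F E) : a + b ∈ Gam F E := by
  have := Gam.comb h ha hb one_pos zero_le_one
  simpa using this

/-- the open cone does not depend on the direction. -/
theorem Gam.eq {e : Emb V W} {s : ℕ} {F : Form e s} {E b : V} (h : Hyp F E)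
    (hb : b ∈ Gam F E) : Gam F b = Gam F E := by
  apply Subset.antisymm
  · intro a ha
    exact Gam.rel (h.change hb) ha (Gam.rel h h.mem hb)
  · intro a ha
    exact Gam.rel h ha hb

end GTH
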