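import Pool.Agent.helper44.SC.Gard2

/-!
# Garding theory: derivatives, positivity, the sharp cone inclusion (Lemma A)
-/

set_option autoImplicit false

open Polynomial Set Filter Topology

noncomputable section

namespace GTH

variable {V W : Type*} [AddCommGroup V] [Module ℝ V] [AddCommGroup W] [Module ℂ W]

/-- extension of a permutation of `Fin s` by fixing `0`. -/
def permSucc {s : ℕ} (σ : Equiv.Perm (Fin s)) : Equiv.Perm (Fin (s + 1)) :=
  Equiv.Perm.decomposeFin.symm (0, σ)

theorem permSucc_zero {s : ℕ} (σ : Equiv.Perm (Fin s)) : permSucc σ 0 = 0 := by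
  simp [permSucc]

theorem permSucc_succ {s : ℕ} (σ : Equiv.Perm (Fin s)) (i : Fin s) :
    permSucc σ i.succ = (σ i).succ := by
  simp [permSucc]

/-- the derivative of a form in a real direction. -/
def Form.der {e : Emb V W} {s : ℕ} (F : Form e (s + 1)) (a : V) : Form e s where
  B := F.B.curryLeft (e.f a)
  symm := by
    intro σ v
    rw [MultilinearMap.curryLeft_apply, MultilinearMap.curryLeft_apply,
      ← F.symm (permSucc σ) (Fin.cons (e.f a) v)]
    congr 1
    funext i
    refine Fin.cases ?_ (fun j => ?_) i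
    · rw [permSucc_zero]
      rfl
    · rw [permSucc_succ]
      rfl
  real := by
    intro v
    rw [MultilinearMap.curryLeft_apply]
    rw [← F.real (Fin.cons a v)]
    congr 2
    funext i
    refine Fin.cases ?_ (fun j => ?_) i
    · rfl
    · rfl

theorem der_dg {e : Emb V W} {s : ℕ} (F : Form e (s + 1)) (a : V) (z : W) :
    dg (F.der a).B z = F.B (Fin.cons (e.f a) (fun _ => z)) := rfl

theorem Hyp.add_cone {e : Emb V W} {s : ℕ} {F : Form e s} {E x a b : V} (h : Hyp F E)
    (ha : a ∈ Gam F E) (hb : b ∈ Gam F E) {z w : ℂ} (hz : 0 < z.im) (hw : 0 ≤ w.im) :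
    dg F.B (e.f x + z • e.f a + w • e.f b) ≠ 0 := by
  have hy : z.im • a + w.im • b ∈ Gam F E := Gam.comb h ha hb hz hw
  have h1 := (h.change hy) (x + z.re • a + w.re • b) Complex.I (by simp)
  have h2 : e.f (x + z.re • a + w.re • b) + Complex.I • e.f (z.im • a + w.im • b) =
      e.f x + z • e.f a + w • e.f b := by
    rw [e.add, e.add, e.add, e.smul, e.smul, e.smul, e.smul, smul_add, smul_smul, smul_smul]
    have hz' : z • e.f a = (z.re : ℂ) • e.f a + (Complex.I * (z.im : ℂ)) • e.f a := by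
      rw [← add_smul, mul_comm Complex.I, Complex.re_add_im]
    have hw' : w • e.f b = (w.re : ℂ) • e.f b + (Complex.I * (w.im : ℂ)) • e.f b := by
      rw [← add_smul, mul_comm Complex.I, Complex.re_add_im]
    rw [hz', hw']
    abel
  rwa [h2] at h1

theorem sum_im_neg (m : Multiset ℂ) (hm : m ≠ 0) (h : ∀ r ∈ m, r.im < 0) :
    ((m.map fun z => 1 / (0 - z)).sum).im < 0 := by
  have h1 : ∀ r : ℂ, r.im < 0 → (1 / (0 - r)).im < 0 := by
    intro r hr
    rw [zero_sub, one_div, Complex.inv_im, Complex.neg_im, neg_neg]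
    refine div_neg_of_neg_of_pos hr ?_
    rw [Complex.normSq_neg]
    refine Complex.normSq_pos.2 ?_
    rintro rfl
    simp at hr
  induction m using Multiset.induction with
  | empty => exact absurd rfl hm
  | cons a m ih =>
    rw [Multiset.map_cons, Multiset.sum_cons, Complex.add_im]
    have h2 := h1 a (h a (Multiset.mem_cons_self a m))
    by_cases hm0 : m = 0
    · subst hm0
      simpa using h2
    · have h3 := ih hm0 (fun r hr => h r (Multiset.mem_cons_of_mem hr))
      linarith

/-- the derivative is hyperbolic. -/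
theorem Hyp.der {e : Emb V W} {s : ℕ} {F : Form e (s + 1)} {E a b : V} (h : Hyp F E)
    (ha : a ∈ Gam F E) (hb : b ∈ Gam F E) : Hyp (F.der a) b := by
  intro x z hz
  have hda : dg F.B (e.f a) ≠ 0 := Gam.self ha
  set Z : W := e.f x + z • e.f b with hZ
  have h0 : ∀ w : ℂ, 0 ≤ w.im → dg F.B (Z + w • e.f a) ≠ 0 := fun w hw =>
    Hyp.add_cone h hb ha hz hw
  have hs : (pol F.B Z (e.f a)).Splits := IsAlgClosed.splits _
  have hne : (pol F.B Z (e.f a)).eval 0 ≠ 0 := by
    rw [pol_eval]
    exact h0 0 (by simp)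
  have h1 := hs.eval_derivative_eq_eval_mul_sum hne
  have h2 : (pol F.B Z (e.f a)).derivative.eval 0 = (s + 1) * dg (F.der a).B Z := by
    rw [← coeff_zero_eq_eval_zero, coeff_derivative, zero_add, pol_coeff_one]
    simp [der_dg]
  have hroots : ∀ r ∈ (pol F.B Z (e.f a)).roots, r.im < 0 := by
    intro r hr
    have h3 := isRoot_of_mem_roots hr
    by_contra hcon
    have h4 : (pol F.B Z (e.f a)).eval r = 0 := h3
    rw [pol_eval] at h4
    exact h0 r (not_lt.1 hcon) h4
  have hcard : (pol F.B Z (e.f a)).roots ≠ 0 := by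
    intro h3
    have h4 := hs.natDegree_eq_card_roots
    rw [h3, pol_deg F.B Z (e.f a) hda] at h4
    simp at h4
  have h5 := sum_im_neg _ hcard hroots
  rw [h2] at h1
  intro h6
  rw [h6, mul_zero] at h1
  rcases mul_eq_zero.1 h1.symm with h7 | h7
  · exact hne h7
  · rw [h7] at h5
    simp at h5

theorem Gam.der {e : Emb V W} {s : ℕ} {F : Form e (s + 1)} {E a b : V} (h : Hyp F E)
    (ha : a ∈ Gam F E) (hb : b ∈ Gam F E) : Gam F E ⊆ Gam (F.der a) b := by
  intro y hy t ht
  have h1 : y + t • b ∈ Gam F E := by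
    have := Gam.comb h hy hb one_pos ht
    simpa using this
  have h2 := (Hyp.der h ha h1).self
  rw [e.add, e.smul] at h2
  exact h2

/-! ### real values -/

/-- the real value. -/
def rv {e : Emb V W} {s : ℕ} (F : Form e s) (x : V) : ℝ := (dg F.B (e.f x)).re

theorem rv_coe {e : Emb V W} {s : ℕ} (F : Form e s) (x : V) : ((rv F x : ℝ) : ℂ) = dg F.B (e.f x) := by
  apply Complex.ext
  · simp [rv]
  · rw [Complex.ofReal_im]
    exact (F.real fun _ => x).symm

theorem rv_ne {e : Emb V W} {s : ℕ} {F : Form e s} {x : V} : rv F x ≠ 0 ↔ dg F.B (e.f x) ≠ 0 := by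
  rw [← rv_coe]
  simp

theorem rv_cont {e : Emb V W} {s : ℕ} (F : Form e s) (x y : V) :
    Continuous fun p : ℝ × ℝ => rv F (p.1 • x + p.2 • y) := by
  have h1 := dg_cont3 F.B (e.f x) (e.f y) 0
  have h2 : Continuous fun p : ℝ × ℝ => (((p.1 : ℂ), (p.2 : ℂ), (0 : ℂ)) : ℂ × ℂ × ℂ) := by
    fun_prop
  have h3 := Complex.continuous_re.comp (h1.comp h2)
  refine h3.congr fun p => ?_
  simp [rv, e.add, e.smul]

theorem rv_smul {e : Emb V W} {s : ℕ} (F : Form e s) (t : ℝ) (x : V) :
    rv F (t • x) = t ^ s * rv F x := by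
  unfold rv
  rw [e.smul, dg_smul, ← Complex.ofReal_pow, Complex.re_ofReal_mul]

/-- positivity on the open cone. -/
theorem Gam.pos {e : Emb V W} {s : ℕ} {F : Form e s} {E : V} (h : Hyp F E) (hE : 0 < rv F E)
    {a : V} (ha : a ∈ Gam F E) : 0 < rv F a := by
  by_contra hcon
  rw [not_lt] at hcon
  have hc : Continuous fun t : ℝ => rv F ((1 - t) • E + t • a) :=
    (rv_cont F E a).comp (by fun_prop : Continuous fun t : ℝ => (1 - t, t))
  have h1 : (0 : ℝ) ∈ Icc ((fun t : ℝ => rv F ((1 - t) • E + t • a)) 1) ((fun t : ℝ => rv F ((1 - t) • E + t • a)) 0) := by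
    constructor
    · simpa using hcon
    · simpa using hE.le
  obtain ⟨t, ht, ht0⟩ := intermediate_value_Icc' (zero_le_one) hc.continuousOn h1
  have ht0' : rv F ((1 - t) • E + t • a) = 0 := ht0
  rcases ht.2.eq_or_lt with h2 | h2
  · subst h2
    have h3 := rv_ne.2 (Gam.self ha)
    apply h3
    simpa using ht0'
  · have h3 : (1 - t) • E + t • a ∈ Gam F E := Gam.comb h h.mem ha (by linarith) ht.1
    exact rv_ne.2 (Gam.self h3) ht0'

/-- positivity of the derivative. -/
theorem Gam.der_pos {e : Emb V W} {s : ℕ} {F : Form e (s + 1)} {E : V} (h : Hyp F E)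
    (hE : 0 < rv F E) {a b : V} (ha : a ∈ Gam F E) (hb : b ∈ Gam F E) : 0 < rv (F.der a) b := by
  have h0 : 0 < rv (F.der a) a := by
    have h1 : rv (F.der a) a = rv F a := by
      unfold rv
      rw [der_dg]
      congr 2
      funext i
      refine Fin.cases ?_ (fun j => ?_) i <;> rfl
    rw [h1]
    exact Gam.pos h hE ha
  exact Gam.pos (Hyp.der h ha ha) h0 (Gam.der h ha ha hb)

end GTH
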