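import Pool.Agent.helper44.SC.Gard3

/-!
# Garding theory: the sharp cone inclusion (Lemma A, `AL_1`)
-/

set_option autoImplicit false

open Polynomial Set Filter Topology

noncomputable section

namespace GTH

variable {V W : Type*} [AddCommGroup V] [Module ℝ V] [AddCommGroup W] [Module ℂ W]

/-! ### real polynomials `∏ (1 + b X)` -/

/-- `∏ (1 + b X)`. -/
def gp (m : Multiset ℝ) : ℝ[X] := (m.map fun b => 1 + C b * X).prod

theorem gp_cons (a : ℝ) (m : Multiset ℝ) : gp (a ::ₘ m) = (1 + C a * X) * gp m := by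
  simp [gp]

theorem gp_cons_eval (a : ℝ) (m : Multiset ℝ) (x : ℝ) :
    (gp (a ::ₘ m)).eval x = (1 + a * x) * (gp m).eval x := by
  rw [gp_cons, eval_mul]
  simp

theorem gp_cons_deriv (a : ℝ) (m : Multiset ℝ) (x : ℝ) :
    (gp (a ::ₘ m)).derivative.eval x = a * (gp m).eval x + (1 + a * x) * (gp m).derivative.eval x := by
  rw [gp_cons, derivative_mul]
  simp

theorem gp_coeff_zero (m : Multiset ℝ) : (gp m).coeff 0 = 1 := by
  induction m using Multiset.induction with
  | empty => simp [gp]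
  | cons a m ih =>
    rw [gp_cons, mul_coeff_zero, ih]
    simp

theorem gp_coeff_one (m : Multiset ℝ) : (gp m).coeff 1 = m.sum := by
  induction m using Multiset.induction with
  | empty => simp [gp, coeff_one]
  | cons a m ih =>
    rw [gp_cons, add_mul, one_mul, coeff_add, ih, mul_assoc, coeff_C_mul, coeff_X_mul,
      gp_coeff_zero, Multiset.sum_cons]
    ring

theorem gp_coeff_two_cons (a : ℝ) (m : Multiset ℝ) :
    (gp (a ::ₘ m)).coeff 2 = (gp m).coeff 2 + a * m.sum := by
  rw [gp_cons, add_mul, one_mul, coeff_add, mul_assoc, coeff_C_mul, coeff_X_mul, gp_coeff_one]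

theorem gp_coeff_two_nonneg (m : Multiset ℝ) (h : ∀ b ∈ m, 0 ≤ b) : 0 ≤ (gp m).coeff 2 := by
  induction m using Multiset.induction with
  | empty => simp [gp, coeff_one]
  | cons a m ih =>
    rw [gp_coeff_two_cons]
    have h1 := ih fun b hb => h b (Multiset.mem_cons_of_mem hb)
    have h2 := h a (Multiset.mem_cons_self a m)
    have h3 : 0 ≤ m.sum := Multiset.sum_nonneg fun b hb => h b (Multiset.mem_cons_of_mem hb)
    positivity

theorem gp_small (m : Multiset ℝ) (x : ℝ) (h : ∀ b ∈ m, 0 < b) (h2 : ∀ b ∈ m, 0 < 1 + b * x) :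
    0 < (gp m).eval x ∧ 0 ≤ (gp m).derivative.eval x ∧ (m ≠ 0 → 0 < (gp m).derivative.eval x) := by
  induction m using Multiset.induction with
  | empty =>
    refine ⟨by simp [gp], by simp [gp], fun h => absurd rfl h⟩
  | cons a m ih =>
    obtain ⟨i1, i2, i3⟩ := ih (fun b hb => h b (Multiset.mem_cons_of_mem hb))
      (fun b hb => h2 b (Multiset.mem_cons_of_mem hb))
    have h3 := h a (Multiset.mem_cons_self a m)
    have h4 := h2 a (Multiset.mem_cons_self a m)
    have h5 : 0 < (gp (a ::ₘ m)).derivative.eval x := by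
      rw [gp_cons_deriv]
      have h6 := mul_pos h3 i1
      have h7 := mul_nonneg h4.le i2
      linarith
    refine ⟨?_, h5.le, fun _ => h5⟩
    rw [gp_cons_eval]
    exact mul_pos h4 i1

theorem gp_sum (m : Multiset ℝ) (t : ℝ) (ht : 0 ≤ t) (h : ∀ b ∈ m, 0 ≤ b) (h2 : t * m.sum < 1) :
    0 < (gp m).eval (-t) ∧ 0 ≤ (gp m).derivative.eval (-t) ∧
      (gp m).derivative.eval (-t) * (1 - t * m.sum) ≤ m.sum * (gp m).eval (-t) := by
  induction m using Multiset.induction with
  | empty =>
    refine ⟨by simp [gp], by simp [gp], by simp [gp]⟩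
  | cons a m ih =>
    have ha := h a (Multiset.mem_cons_self a m)
    have hm : ∀ b ∈ m, 0 ≤ b := fun b hb => h b (Multiset.mem_cons_of_mem hb)
    have hs : 0 ≤ m.sum := Multiset.sum_nonneg hm
    rw [Multiset.sum_cons] at h2
    have h3 : t * m.sum < 1 := by nlinarith
    have h4 : t * a < 1 := by nlinarith
    obtain ⟨i1, i2, i3⟩ := ih hm h3
    rw [gp_cons_eval, gp_cons_deriv, Multiset.sum_cons]
    set g := (gp m).eval (-t)
    set d := (gp m).derivative.eval (-t)
    set σ := m.sum
    refine ⟨?_, ?_, ?_⟩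
    · have : 0 < 1 + a * -t := by linarith
      exact mul_pos this i1
    · have : 0 < 1 + a * -t := by linarith
      have h5 := mul_nonneg ha i1.le
      have h6 := mul_nonneg this.le i2
      linarith
    · have h5 : 0 < 1 - t * σ := by linarith
      have h6 : 0 < 1 - t * a := by linarith
      have h7 : 0 < 1 - t * (a + σ) := by linarith
      -- multiply by `1 - tσ`
      have h8 : (a * g + (1 + a * -t) * d) * (1 - t * (a + σ)) * (1 - t * σ) ≤
          (a + σ) * ((1 + a * -t) * g) * (1 - t * σ) := by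
        have h9 : (1 - t * a) * (1 - t * (a + σ)) * (d * (1 - t * σ)) ≤
            (1 - t * a) * (1 - t * (a + σ)) * (σ * g) :=
          mul_le_mul_of_nonneg_left i3 (by positivity)
        have h10 : 0 ≤ g * (t * a * σ * (2 - t * (a + σ))) := by
          have : 0 ≤ 2 - t * (a + σ) := by linarith
          positivity
        nlinarith [h9, h10]
      exact le_of_mul_le_mul_right h8 h5

/-- **the elementary inequality behind `AL_1`.** -/
theorem gp_key (m : Multiset ℝ) (hm0 : m ≠ 0) (t : ℝ) (h : ∀ b ∈ m, 0 < b)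
    (h2 : 0 < t → t ^ 2 * (gp m).coeff 2 < 1) : 0 < (gp m).derivative.eval (-t) := by
  by_cases hc : ∀ b ∈ m, 0 < 1 + b * (-t)
  · exact (gp_small m (-t) h hc).2.2 hm0
  push Not at hc
  obtain ⟨b, hb, hbt⟩ := hc
  have hbp := h b hb
  have ht : 0 < t := by
    by_contra hcon
    rw [not_lt] at hcon
    nlinarith
  obtain ⟨m', rfl⟩ := Multiset.exists_cons_of_mem hb
  have h3 := h2 ht
  rw [gp_coeff_two_cons] at h3
  have hm : ∀ c ∈ m', 0 ≤ c := fun c hc => (h c (Multiset.mem_cons_of_mem hc)).le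
  have h4 := gp_coeff_two_nonneg m' hm
  have hs : 0 ≤ m'.sum := Multiset.sum_nonneg hm
  have h5 : t ^ 2 * (b * m'.sum) < 1 := by
    have : 0 ≤ t ^ 2 * (gp m').coeff 2 := by positivity
    nlinarith
  have h6 : t * m'.sum < 1 := by
    have h7 : 1 ≤ t * b := by linarith
    have h8 : 0 ≤ t * m'.sum := by positivity
    nlinarith
  obtain ⟨i1, i2, i3⟩ := gp_sum m' t ht.le hm h6
  rw [gp_cons_deriv]
  set g := (gp m').eval (-t)
  set d := (gp m').derivative.eval (-t)
  set σ := m'.sum
  have h7 : 0 < 1 - t * σ := by linarith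
  have h8 : 2 * t * b * σ < b + σ := by
    rcases hs.eq_or_lt with h9 | h9
    · rw [← h9]
      simpa using hbp
    · have h10 : (2 * t * b * σ) ^ 2 < (b + σ) ^ 2 := by
        have h11 : (2 * t * b * σ) ^ 2 = 4 * (b * σ) * (t ^ 2 * (b * σ)) := by ring
        rw [h11]
        have h12 : 0 < b * σ := by positivity
        nlinarith [sq_nonneg (b - σ)]
      exact lt_of_pow_lt_pow_left₀ 2 (by positivity) h10
  have h9 : 0 < (b * g + (1 + b * -t) * d) * (1 - t * σ) := by
    have h10 : (t * b - 1) * (d * (1 - t * σ)) ≤ (t * b - 1) * (σ * g) :=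
      mul_le_mul_of_nonneg_left i3 (by linarith)
    have h11 : 0 < g * (b + σ - 2 * t * b * σ) := mul_pos i1 (by linarith)
    nlinarith
  exact (pos_iff_pos_of_mul_pos h9).2 h7

/-! ### coefficients of `pol` -/

theorem Form.symm_card {e : Emb V W} {s : ℕ} (F : Form e s) (u a : W) (S : Finset (Fin s)) :
    F.B (fun i => if i ∈ S then a else u) = F.B (fun i => if i.1 < S.card then a else u) := by
  have hS : S.card ≤ s := by simpa using Finset.card_le_univ S
  have hcard : Fintype.card {i : Fin s // i.1 < S.card} = Fintype.card {i : Fin s // i ∈ S} := by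
    rw [Fintype.card_coe, Fintype.card_subtype]
    have : (Finset.univ.filter fun i : Fin s => i.1 < S.card) =
        (Finset.univ : Finset (Fin S.card)).map (Fin.castLEEmb hS) := by
      ext i
      simp only [Finset.mem_filter, Finset.mem_univ, true_and, Finset.mem_map, Fin.castLEEmb_apply]
      constructor
      · intro hi
        exact ⟨⟨i.1, hi⟩, rfl⟩
      · rintro ⟨j, rfl⟩
        exact j.2
    rw [this, Finset.card_map, Finset.card_univ, Fintype.card_fin]
  set f : {i : Fin s // i.1 < S.card} ≃ {i : Fin s // i ∈ S} := Fintype.equivOfCardEq hcard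
  rw [← F.symm f.extendSubtype (fun i => if i ∈ S then a else u)]
  congr 1
  funext i
  by_cases hi : i.1 < S.card
  · rw [if_pos hi, if_pos]
    exact f.extendSubtype_mem i hi
  · rw [if_neg hi, if_neg]
    exact f.extendSubtype_not_mem i hi

theorem pol_coeff_gen {e : Emb V W} {s : ℕ} (F : Form e s) (u a : W) (k : ℕ) :
    (pol F.B u a).coeff k = (s.choose k : ℂ) * F.B (fun i => if i.1 < k then a else u) := by
  rw [pol_coeff, ← Finset.sum_filter]
  have h1 : ∀ S ∈ Finset.univ.filter (fun S : Finset (Fin s) => S.card = k),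
      F.B (fun i => if i ∈ S then a else u) = F.B (fun i => if i.1 < k then a else u) := by
    intro S hS
    rw [F.symm_card, (Finset.mem_filter.1 hS).2]
  rw [Finset.sum_congr rfl h1, Finset.sum_const, nsmul_eq_mul]
  congr 2
  have h2 : Finset.univ.filter (fun S : Finset (Fin s) => S.card = k) =
      Finset.powersetCard k (Finset.univ : Finset (Fin s)) := by
    ext S
    simp [Finset.mem_powersetCard]
  rw [h2, Finset.card_powersetCard, Finset.card_univ, Fintype.card_fin]

theorem pol_coeff_two {e : Emb V W} {s : ℕ} (F : Form e (s + 2)) (u : W) (a : V) :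
    (pol F.B u (e.f a)).coeff 2 = ((s + 2).choose 2 : ℂ) * dg ((F.der a).der a).B u := by
  rw [pol_coeff_gen]
  congr 1
  rw [der_dg]
  change _ = F.B _
  congr 1
  funext i
  refine Fin.cases ?_ (fun j => ?_) i
  · simp
  · refine Fin.cases ?_ (fun k => ?_) j
    · simp
    · simp

theorem pol_shift {s : ℕ} (B : MultilinearMap ℂ (fun _ : Fin s => W) ℂ) (u a : W) (w : ℂ) :
    pol B (u + w • a) a = (pol B u a).comp (X + C w) := by
  apply Polynomial.funext
  intro z
  rw [pol_eval, eval_comp, eval_add, eval_X, eval_C, pol_eval]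
  congr 1
  rw [add_smul]
  abel

theorem pol_deriv {e : Emb V W} {s : ℕ} (F : Form e (s + 1)) (u : W) (a : V) (w : ℂ) :
    (pol F.B u (e.f a)).derivative.eval w = (s + 1) * dg (F.der a).B (u + w • e.f a) := by
  have h1 := pol_coeff_one F (u + w • e.f a) (e.f a)
  have h2 : (pol F.B (u + w • e.f a) (e.f a)).coeff 1 =
      (pol F.B (u + w • e.f a) (e.f a)).derivative.eval 0 := by
    rw [← coeff_zero_eq_eval_zero, coeff_derivative]
    simp
  rw [h2, pol_shift, derivative_comp] at h1
  simp at h1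
  rw [h1, der_dg]

/-! ### the factorization on the cone -/

theorem fact_aux (m : Multiset ℂ) (h : ∀ r ∈ m, r.im = 0 ∧ r.re < 0) :
    ∃ b : Multiset ℝ, Multiset.card b = Multiset.card m ∧ (∀ x ∈ b, 0 < x) ∧
      ∀ z : ℂ, (m.map (z - ·)).prod = (m.map (0 - ·)).prod * ((gp b).map Complex.ofRealHom).eval z := by
  induction m using Multiset.induction with
  | empty => exact ⟨0, by simp, by simp, by simp [gp]⟩
  | cons a m ih =>
    obtain ⟨b, h1, h2, h3⟩ := ih fun r hr => h r (Multiset.mem_cons_of_mem hr)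
    obtain ⟨ha1, ha2⟩ := h a (Multiset.mem_cons_self a m)
    have haa : a = ((a.re : ℝ) : ℂ) := by
      apply Complex.ext
      · simp
      · simpa using ha1
    have hac : ((a.re : ℝ) : ℂ) ≠ 0 := by exact_mod_cast ha2.ne
    refine ⟨(-1 / a.re) ::ₘ b, by simp [h1], ?_, ?_⟩
    · intro x hx
      rcases Multiset.mem_cons.1 hx with rfl | hx
      · exact div_pos_of_neg_of_neg (by norm_num) ha2
      · exact h2 x hx
    · intro z
      rw [Multiset.map_cons, Multiset.prod_cons, Multiset.map_cons, Multiset.prod_cons, h3 z,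
        gp_cons, Polynomial.map_mul, eval_mul]
      have h4 : ((1 + C (-1 / a.re) * X : ℝ[X]).map Complex.ofRealHom).eval z =
          1 + (-1 / (a.re : ℂ)) * z := by
        simp
      rw [h4, haa]
      simp only [Complex.ofReal_re]
      field_simp
      ring

/-- factorization of `B (K + z A)`. -/
theorem fact {e : Emb V W} {s : ℕ} {F : Form e s} {E : V} (h : Hyp F E) {K A : V}
    (hK : K ∈ Gam F E) (hA : A ∈ Gam F E) :
    ∃ b : Multiset ℝ, Multiset.card b = s ∧ (∀ x ∈ b, 0 < x) ∧
      pol F.B (e.f K) (e.f A) = C ((rv F K : ℝ) : ℂ) * (gp b).map Complex.ofRealHom := by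
  have hHA : Hyp F A := h.change hA
  have hdA : dg F.B (e.f A) ≠ 0 := Gam.self hA
  have hrel : K ∈ Gam F A := Gam.rel h hK hA
  have hs : (pol F.B (e.f K) (e.f A)).Splits := IsAlgClosed.splits _
  have hroots : ∀ r ∈ (pol F.B (e.f K) (e.f A)).roots, r.im = 0 ∧ r.re < 0 := by
    intro r hr
    have h3 : (pol F.B (e.f K) (e.f A)).eval r = 0 := isRoot_of_mem_roots hr
    rw [pol_eval] at h3
    have him : r.im = 0 := by
      by_contra hcon
      exact hHA.ne K r hcon h3
    refine ⟨him, ?_⟩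
    by_contra hcon
    have hrr : r = ((r.re : ℝ) : ℂ) := by
      apply Complex.ext
      · simp
      · simpa using him
    rw [hrr] at h3
    exact hrel r.re (not_lt.1 hcon) h3
  obtain ⟨b, h1, h2, h3⟩ := fact_aux _ hroots
  refine ⟨b, ?_, h2, ?_⟩
  · rw [h1, ← hs.natDegree_eq_card_roots, pol_deg F.B _ _ hdA]
  · apply Polynomial.funext
    intro z
    rw [hs.eval_eq_prod_roots z, h3 z, ← mul_assoc, ← hs.eval_eq_prod_roots 0, pol_eval, zero_smul,
      add_zero, eval_mul, eval_C, rv_coe]

/-- the real version of the factorization. -/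
theorem fact_rv {e : Emb V W} {s : ℕ} {F : Form e s} {K A : V} {b : Multiset ℝ}
    (hb : pol F.B (e.f K) (e.f A) = C ((rv F K : ℝ) : ℂ) * (gp b).map Complex.ofRealHom) (t : ℝ) :
    rv F (K + t • A) = rv F K * (gp b).eval t := by
  have h1 : dg F.B (e.f (K + t • A)) = (pol F.B (e.f K) (e.f A)).eval (t : ℂ) := by
    rw [pol_eval, e.add, e.smul]
  have h2 : ((rv F (K + t • A) : ℝ) : ℂ) = ((rv F K * (gp b).eval t : ℝ) : ℂ) := by
    rw [rv_coe, h1, hb, eval_mul, eval_C]
    push_cast
    congr 1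
    have := Polynomial.eval_map_apply Complex.ofRealHom t (p := gp b)
    simpa using this
  exact_mod_cast h2

theorem fact_der {e : Emb V W} {s : ℕ} {F : Form e (s + 1)} {K A : V} {b : Multiset ℝ}
    (hb : pol F.B (e.f K) (e.f A) = C ((rv F K : ℝ) : ℂ) * (gp b).map Complex.ofRealHom) (t : ℝ) :
    (s + 1) * rv (F.der A) (K + t • A) = rv F K * (gp b).derivative.eval t := by
  have h1 := pol_deriv F (e.f K) A (t : ℂ)
  have h2 : (((s + 1) * rv (F.der A) (K + t • A) : ℝ) : ℂ) =
      ((rv F K * (gp b).derivative.eval t : ℝ) : ℂ) := by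
    push_cast
    rw [rv_coe, e.add, e.smul, ← h1, hb, derivative_C_mul, eval_mul, eval_C, derivative_map]
    congr 1
    have := Polynomial.eval_map_apply Complex.ofRealHom t (p := (gp b).derivative)
    simpa using this
  exact_mod_cast h2

theorem fact_two {e : Emb V W} {s : ℕ} {F : Form e (s + 2)} {K A : V} {b : Multiset ℝ}
    (hb : pol F.B (e.f K) (e.f A) = C ((rv F K : ℝ) : ℂ) * (gp b).map Complex.ofRealHom) :
    ((s + 2).choose 2 : ℝ) * rv ((F.der A).der A) K = rv F K * (gp b).coeff 2 := by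
  have h1 := pol_coeff_two F (e.f K) A
  have h2 : ((((s + 2).choose 2 : ℝ) * rv ((F.der A).der A) K : ℝ) : ℂ) =
      ((rv F K * (gp b).coeff 2 : ℝ) : ℂ) := by
    push_cast
    rw [rv_coe, ← h1, hb, coeff_C_mul, coeff_map]
    simp
  exact_mod_cast h2

/-- **Lemma A (`AL_1`)**: if `C(s,2) φ² B(A, A, K, …, K) < B(K, …, K)` then `K - φ A` is in the
cone of the derivative. -/
theorem lemmaA {e : Emb V W} {s : ℕ} {F : Form e (s + 2)} {E : V} (h : Hyp F E)
    (hE : 0 < rv F E) {K A : V} (hK : K ∈ Gam F E) (hA : A ∈ Gam F E) {φ : ℝ}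
    (hφ : ((s + 2).choose 2 : ℝ) * φ ^ 2 * rv ((F.der A).der A) K < rv F K) :
    K - φ • A ∈ Gam (F.der A) E := by
  obtain ⟨b, hb1, hb2, hb3⟩ := fact h hK hA
  have hKp : 0 < rv F K := Gam.pos h hE hK
  have h2 := fact_two hb3
  have hc2 : φ ^ 2 * (gp b).coeff 2 < 1 := by
    have h3 : rv F K * (φ ^ 2 * (gp b).coeff 2) < rv F K * 1 := by
      rw [mul_one]
      calc rv F K * (φ ^ 2 * (gp b).coeff 2) = φ ^ 2 * (rv F K * (gp b).coeff 2) := by ring
        _ = ((s + 2).choose 2 : ℝ) * φ ^ 2 * rv ((F.der A).der A) K := by rw [← h2]; ring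
        _ < rv F K := hφ
    exact lt_of_mul_lt_mul_left h3 hKp.le
  have hc0 : 0 ≤ (gp b).coeff 2 := gp_coeff_two_nonneg b fun x hx => (hb2 x hx).le
  have hEA : A ∈ Gam (F.der A) E := by
    have hE' : E ∈ Gam F E := h.mem
    exact Gam.der h hA hE' hA
  have hHder : Hyp (F.der A) E := Hyp.der h hA h.mem
  rw [← Gam.eq hHder hEA]
  intro τ hτ
  have hb0 : b ≠ 0 := by
    rintro rfl
    simp at hb1
  have hder := fact_der hb3 (-(φ - τ))
  have h4 : 0 < (gp b).derivative.eval (-(φ - τ)) := by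
    refine gp_key b hb0 (φ - τ) hb2 fun hpos => ?_
    have h5 : (φ - τ) ^ 2 ≤ φ ^ 2 := by nlinarith
    nlinarith
  have h5 : 0 < rv (F.der A) (K + (-(φ - τ)) • A) := by
    have h6 : 0 < ((s + 1 : ℕ) + 1 : ℝ) * rv (F.der A) (K + (-(φ - τ)) • A) := by
      rw [hder]
      exact mul_pos hKp h4
    exact (pos_iff_pos_of_mul_pos h6).1 (by positivity)
  have h6 : e.f (K - φ • A) + (τ : ℂ) • e.f A = e.f (K + (-(φ - τ)) • A) := by
    rw [← e.smul, ← e.add]
    congr 1
    rw [neg_sub, sub_smul]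
    abel
  rw [h6]
  exact rv_ne.1 h5.ne'

end GTH
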