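import Pool.Agent.helper44.SC.Gard4

/-!
# Garding theory: openness, the closed cone, monotonicity, mixed positivity
-/

set_option autoImplicit false

open Polynomial Set Filter Topology

noncomputable section

namespace GTH

variable {V W : Type*} [AddCommGroup V] [Module ℝ V] [AddCommGroup W] [Module ℂ W]

theorem gp_eval_pos (m : Multiset ℝ) (x : ℝ) (h2 : ∀ b ∈ m, 0 < 1 + b * x) : 0 < (gp m).eval x := by
  induction m using Multiset.induction with
  | empty => simp [gp]
  | cons a m ih =>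
    rw [gp_cons_eval]
    exact mul_pos (h2 a (Multiset.mem_cons_self a m))
      (ih fun b hb => h2 b (Multiset.mem_cons_of_mem hb))

theorem gp_one_le (m : Multiset ℝ) (x : ℝ) (hx : 0 ≤ x) (h2 : ∀ b ∈ m, 0 < b) :
    1 ≤ (gp m).eval x := by
  induction m using Multiset.induction with
  | empty => simp [gp]
  | cons a m ih =>
    rw [gp_cons_eval]
    have h1 := h2 a (Multiset.mem_cons_self a m)
    have h3 := ih fun b hb => h2 b (Multiset.mem_cons_of_mem hb)
    have h4 : 0 ≤ a * x := by positivity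
    nlinarith

theorem exists_bound (m : Multiset ℝ) : ∃ M : ℝ, 0 < M ∧ ∀ b ∈ m, b ≤ M := by
  induction m using Multiset.induction with
  | empty => exact ⟨1, one_pos, by simp⟩
  | cons a m ih =>
    obtain ⟨M, hM, h⟩ := ih
    refine ⟨max a M, lt_of_lt_of_le hM (le_max_right _ _), fun b hb => ?_⟩
    rcases Multiset.mem_cons.1 hb with rfl | hb
    · exact le_max_left _ _
    · exact (h b hb).trans (le_max_right _ _)

/-- the open cone is open in every direction of the cone. -/
theorem Gam.sub_small {e : Emb V W} {s : ℕ} {F : Form e s} {E a b : V} (h : Hyp F E)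
    (ha : a ∈ Gam F E) (hb : b ∈ Gam F E) : ∃ ε₀ > (0 : ℝ), ∀ ε ≤ ε₀, a - ε • b ∈ Gam F E := by
  obtain ⟨m, hm1, hm2, hm3⟩ := fact h ha hb
  obtain ⟨M, hM, hMb⟩ := exists_bound m
  refine ⟨1 / (2 * M), by positivity, fun ε hε => ?_⟩
  rw [← Gam.eq h hb]
  intro t ht
  have h1 := fact_rv hm3 (t - ε)
  have h2 : 0 < (gp m).eval (t - ε) := by
    refine gp_eval_pos m _ fun c hc => ?_
    have h3 := hm2 c hc
    have h4 := hMb c hc
    have h5 : -(1 / (2 * M)) ≤ t - ε := by linarith
    have h6 : c * (1 / (2 * M)) ≤ 1 / 2 := by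
      rw [mul_one_div, div_le_iff₀ (by positivity)]
      linarith
    nlinarith
  have h3 : e.f (a - ε • b) + (t : ℂ) • e.f b = e.f (a + (t - ε) • b) := by
    rw [← e.smul, ← e.add]
    congr 1
    rw [sub_smul]
    abel
  rw [h3, ← rv_ne, h1]
  exact mul_ne_zero (rv_ne.2 (Gam.self ha)) h2.ne'

/-- the closed cone. -/
def GamC {e : Emb V W} {s : ℕ} (F : Form e s) (E : V) : Set V :=
  {a | ∀ ε : ℝ, 0 < ε → a + ε • E ∈ Gam F E}

theorem Gam.sub_GamC {e : Emb V W} {s : ℕ} {F : Form e s} {E : V} : Gam F E ⊆ GamC F E := by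
  intro a ha ε hε
  exact Gam.add ha hε.le

theorem GamC.zero {e : Emb V W} {s : ℕ} {F : Form e s} {E : V} (h : Hyp F E) : (0 : V) ∈ GamC F E := by
  intro ε hε
  rw [zero_add]
  exact Gam.smul h.mem hε

/-- open cone plus closed cone is in the open cone. -/
theorem Gam.add_GamC {e : Emb V W} {s : ℕ} {F : Form e s} {E a b : V} (h : Hyp F E)
    (ha : a ∈ Gam F E) (hb : b ∈ GamC F E) : a + b ∈ Gam F E := by
  obtain ⟨ε, hε, h1⟩ := Gam.sub_small h ha h.mem
  have h2 := Gam.add' h (h1 ε le_rfl) (hb ε hε)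
  have h3 : a - ε • E + (b + ε • E) = a + b := by abel
  rwa [h3] at h2

theorem GamC.add {e : Emb V W} {s : ℕ} {F : Form e s} {E a b : V} (h : Hyp F E)
    (ha : a ∈ GamC F E) (hb : b ∈ GamC F E) : a + b ∈ GamC F E := by
  intro ε hε
  have h2 := Gam.add' h (ha (ε / 2) (by positivity)) (hb (ε / 2) (by positivity))
  have h3 : a + (ε / 2) • E + (b + (ε / 2) • E) = a + b + ε • E := by
    have : ε • E = (ε / 2) • E + (ε / 2) • E := by
      rw [← add_smul]
      congr 1
      ring
    rw [this]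
    abel
  rwa [h3] at h2

theorem GamC.smul {e : Emb V W} {s : ℕ} {F : Form e s} {E a : V} (h : Hyp F E)
    (ha : a ∈ GamC F E) {t : ℝ} (ht : 0 ≤ t) : t • a ∈ GamC F E := by
  rcases ht.eq_or_lt with h0 | h0
  · rw [← h0, zero_smul]
    exact GamC.zero h
  intro ε hε
  have h2 := Gam.smul (ha (ε / t) (by positivity)) h0
  have h3 : t • (a + (ε / t) • E) = t • a + ε • E := by
    rw [smul_add, smul_smul, mul_div_cancel₀ _ h0.ne']
  rwa [h3] at h2

/-- closedness along segments. -/
theorem GamC.of_forall {e : Emb V W} {s : ℕ} {F : Form e s} {E a b : V} (h : Hyp F E)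
    (hb : b ∈ Gam F E) (ha : ∀ ε : ℝ, 0 < ε → a + ε • b ∈ GamC F E) : a ∈ GamC F E := by
  intro ε hε
  obtain ⟨δ, hδ, h1⟩ := Gam.sub_small h (Gam.smul h.mem hε) hb
  have h2 := Gam.add_GamC h (h1 δ le_rfl) (ha δ hδ)
  have h3 : ε • E - δ • b + (a + δ • b) = a + ε • E := by abel
  rwa [h3] at h2

/-- the closed cone does not depend on the direction. -/
theorem GamC.eq {e : Emb V W} {s : ℕ} {F : Form e s} {E b : V} (h : Hyp F E)
    (hb : b ∈ Gam F E) : GamC F b = GamC F E := by
  apply Subset.antisymm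
  · intro a ha
    refine GamC.of_forall h hb fun ε hε => ?_
    have h1 := ha ε hε
    rw [Gam.eq h hb] at h1
    exact Gam.sub_GamC h1
  · intro a ha ε hε
    rw [Gam.eq h hb]
    have := Gam.add_GamC h (Gam.smul hb hε) ha
    rwa [add_comm] at this

theorem GamC.limit {e : Emb V W} {s : ℕ} {F : Form e s} {E a b : V} {c : ℝ}
    (hc : ∀ ε : ℝ, 0 < ε → c ≤ rv F (a + ε • b)) : c ≤ rv F a := by
  have h1 : Continuous fun t : ℝ => rv F (a + t • b) := by
    have := (rv_cont F a b).comp (by fun_prop : Continuous fun t : ℝ => ((1 : ℝ), t))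
    refine this.congr fun t => ?_
    simp
  have h2 : Tendsto (fun t : ℝ => rv F (a + t • b)) (𝓝[>] 0) (𝓝 (rv F a)) := by
    have := (h1.tendsto 0).mono_left (nhdsWithin_le_nhds (s := Ioi (0 : ℝ)))
    simpa using this
  refine ge_of_tendsto h2 ?_
  filter_upwards [self_mem_nhdsWithin] with t ht
  exact hc t ht

theorem GamC.nonneg {e : Emb V W} {s : ℕ} {F : Form e s} {E a : V} (h : Hyp F E)
    (hE : 0 < rv F E) (ha : a ∈ GamC F E) : 0 ≤ rv F a :=
  GamC.limit (E := E) (b := E) fun ε hε => (Gam.pos h hE (ha ε hε)).le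

/-- a point of the closed cone with nonzero value is in the open cone. -/
theorem GamC.mem_of_ne {e : Emb V W} {s : ℕ} {F : Form e s} {E a : V}
    (ha : a ∈ GamC F E) (h0 : rv F a ≠ 0) : a ∈ Gam F E := by
  intro t ht
  rcases ht.eq_or_lt with h1 | h1
  · rw [← h1, Complex.ofReal_zero, zero_smul, add_zero]
    exact rv_ne.1 h0
  · have := Gam.self (ha t h1)
    rwa [e.add, e.smul] at this

theorem Gam.mono {e : Emb V W} {s : ℕ} {F : Form e s} {E a b : V} (h : Hyp F E)
    (hE : 0 < rv F E) (ha : a ∈ Gam F E) (hb : b ∈ Gam F E) : rv F a ≤ rv F (a + b) := by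
  obtain ⟨m, hm1, hm2, hm3⟩ := fact h ha hb
  have h1 := fact_rv hm3 1
  rw [one_smul] at h1
  rw [h1]
  have h2 := gp_one_le m 1 zero_le_one hm2
  have h3 := Gam.pos h hE ha
  nlinarith

/-- monotonicity on the closed cone. -/
theorem GamC.mono {e : Emb V W} {s : ℕ} {F : Form e s} {E a b : V} (h : Hyp F E)
    (hE : 0 < rv F E) (ha : a ∈ GamC F E) (hb : b ∈ GamC F E) : rv F a ≤ rv F (a + b) := by
  by_cases h0 : rv F a = 0
  · rw [h0]
    exact GamC.nonneg h hE (GamC.add h ha hb)
  have ha' := GamC.mem_of_ne ha h0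
  refine GamC.limit (E := E) (b := E) fun ε hε => ?_
  have := Gam.mono h hE ha' (hb ε hε)
  rwa [← add_assoc] at this

/-- the closed cone of the derivative contains the closed cone. -/
theorem GamC.der {e : Emb V W} {s : ℕ} {F : Form e (s + 1)} {E a : V} (h : Hyp F E)
    (ha : a ∈ Gam F E) : GamC F E ⊆ GamC (F.der a) E := by
  intro b hb ε hε
  exact Gam.der h ha h.mem (hb ε hε)

/-! ### the real multilinear form -/

/-- the real multilinear form. -/
def Form.re {e : Emb V W} {s : ℕ} (F : Form e s) : MultilinearMap ℝ (fun _ : Fin s => V) ℝ where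
  toFun v := (F.B fun i => e.f (v i)).re
  map_update_add' := by
    intro inst v i x y
    have hu : ∀ z : V, (fun j => e.f (Function.update v i z j)) =
        Function.update (fun j => e.f (v j)) i (e.f z) := by
      intro z
      funext j
      by_cases hj : j = i
      · subst hj
        simp
      · simp [hj]
    rw [hu, hu, hu, e.add]
    have := F.B.map_update_add (fun j => e.f (v j)) i (e.f x) (e.f y)
    rw [this, Complex.add_re]
  map_update_smul' := by
    intro inst v i c x
    have hu : ∀ z : V, (fun j => e.f (Function.update v i z j)) =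
        Function.update (fun j => e.f (v j)) i (e.f z) := by
      intro z
      funext j
      by_cases hj : j = i
      · subst hj
        simp
      · simp [hj]
    rw [hu, hu, e.smul]
    have := F.B.map_update_smul (fun j => e.f (v j)) i (c : ℂ) (e.f x)
    rw [this, smul_eq_mul, smul_eq_mul, Complex.re_ofReal_mul]

theorem Form.re_apply {e : Emb V W} {s : ℕ} (F : Form e s) (v : Fin s → V) :
    F.re v = (F.B fun i => e.f (v i)).re := rfl

theorem Form.re_coe {e : Emb V W} {s : ℕ} (F : Form e s) (v : Fin s → V) :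
    ((F.re v : ℝ) : ℂ) = F.B fun i => e.f (v i) := by
  apply Complex.ext
  · simp [Form.re_apply]
  · rw [Complex.ofReal_im]
    exact (F.real v).symm

theorem Form.re_const {e : Emb V W} {s : ℕ} (F : Form e s) (x : V) : F.re (fun _ => x) = rv F x := rfl

theorem Form.re_symm {e : Emb V W} {s : ℕ} (F : Form e s) (σ : Equiv.Perm (Fin s)) (v : Fin s → V) :
    F.re (fun i => v (σ i)) = F.re v := by
  rw [F.re_apply, F.re_apply, F.symm σ (fun i => e.f (v i))]

theorem Form.re_cons {e : Emb V W} {s : ℕ} (F : Form e (s + 1)) (a : V) (v : Fin s → V) :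
    F.re (Fin.cons a v) = (F.der a).re v := by
  rw [F.re_apply, Form.re_apply]
  congr 1
  change _ = F.B (Fin.cons (e.f a) fun i => e.f (v i))
  congr 1
  funext i
  refine Fin.cases ?_ (fun j => ?_) i <;> rfl

/-- **mixed positivity.** -/
theorem Gam.mixed_pos {e : Emb V W} {s : ℕ} {F : Form e s} {E : V} (h : Hyp F E)
    (hE : 0 < rv F E) (v : Fin s → V) (hv : ∀ i, v i ∈ Gam F E) : 0 < F.re v := by
  induction s with
  | zero =>
    have h1 : F.re v = rv F E := by
      rw [← F.re_const]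
      congr 1
      funext i
      exact i.elim0
    rw [h1]
    exact hE
  | succ s ih =>
    have h1 : F.re v = (F.der (v 0)).re (fun i => v i.succ) := by
      rw [← F.re_cons]
      congr 1
      funext i
      refine Fin.cases ?_ (fun j => ?_) i <;> rfl
    rw [h1]
    exact ih (Hyp.der h (hv 0) h.mem) (Gam.der_pos h hE (hv 0) h.mem) _
      (fun i => Gam.der h (hv 0) h.mem (hv i.succ))

theorem Form.re_limit {e : Emb V W} {s : ℕ} (F : Form e s) (v w : Fin s → V) :
    Tendsto (fun ε : ℝ => F.re (fun i => v i + ε • w i)) (𝓝[>] 0) (𝓝 (F.re v)) := by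
  have h1 : ∀ ε : ℝ, F.re (fun i => v i + ε • w i) =
      ∑ S : Finset (Fin s), ε ^ S.card * F.re (S.piecewise w v) := by
    intro ε
    have h2 : (fun i => v i + ε • w i) = (fun i => ε • w i) + v := by
      funext i
      simp [add_comm]
    rw [h2, MultilinearMap.map_add_univ]
    refine Finset.sum_congr rfl fun S _ => ?_
    have h3 := F.re.map_piecewise_smul (fun _ => ε) (S.piecewise w v) S
    have h4 : (S.piecewise (fun i => (fun _ => ε) i • (S.piecewise w v) i) (S.piecewise w v)) =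
        S.piecewise (fun i => ε • w i) v := by
      funext i
      by_cases hi : i ∈ S
      · simp [hi]
      · simp [hi]
    rw [h4] at h3
    rw [h3]
    simp
  have h2 : Continuous fun ε : ℝ => F.re (fun i => v i + ε • w i) := by
    simp_rw [h1]
    fun_prop
  have h3 := (h2.tendsto 0).mono_left (nhdsWithin_le_nhds (s := Ioi (0 : ℝ)))
  simpa using h3

theorem GamC.mixed_nonneg {e : Emb V W} {s : ℕ} {F : Form e s} {E : V} (h : Hyp F E)
    (hE : 0 < rv F E) (v : Fin s → V) (hv : ∀ i, v i ∈ GamC F E) : 0 ≤ F.re v := by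
  refine ge_of_tendsto (F.re_limit v (fun _ => E)) ?_
  filter_upwards [self_mem_nhdsWithin] with ε hε
  exact (Gam.mixed_pos h hE _ fun i => hv i ε hε).le

/-- **Lemma A, closed form.** -/
theorem lemmaA' {e : Emb V W} {s : ℕ} {F : Form e (s + 2)} {E : V} (h : Hyp F E)
    (hE : 0 < rv F E) {K A : V} (hK : K ∈ Gam F E) (hA : A ∈ Gam F E) {φ : ℝ} (hφ0 : 0 ≤ φ)
    (hφ : ((s + 2).choose 2 : ℝ) * φ ^ 2 * rv ((F.der A).der A) K ≤ rv F K) :
    K - φ • A ∈ GamC (F.der A) E := by
  have hH : Hyp (F.der A) E := Hyp.der h hA h.mem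
  have hAd : A ∈ Gam (F.der A) E := Gam.der h hA h.mem hA
  rcases hφ0.eq_or_lt with h0 | h0
  · rw [← h0, zero_smul, sub_zero]
    exact Gam.sub_GamC (Gam.der h hA h.mem hK)
  refine GamC.of_forall hH hAd fun ε hε => ?_
  have hKp : 0 < rv F K := Gam.pos h hE hK
  have key : ∀ ψ : ℝ, 0 ≤ ψ → ψ < φ → K - ψ • A ∈ Gam (F.der A) E := by
    intro ψ hψ hψφ
    refine lemmaA h hE hK hA ?_
    have h1 : ψ ^ 2 < φ ^ 2 := by nlinarith
    by_cases h2 : 0 < ((s + 2).choose 2 : ℝ) * rv ((F.der A).der A) K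
    · calc ((s + 2).choose 2 : ℝ) * ψ ^ 2 * rv ((F.der A).der A) K
          = ψ ^ 2 * (((s + 2).choose 2 : ℝ) * rv ((F.der A).der A) K) := by ring
        _ < φ ^ 2 * (((s + 2).choose 2 : ℝ) * rv ((F.der A).der A) K) :=
            mul_lt_mul_of_pos_right h1 h2
        _ = ((s + 2).choose 2 : ℝ) * φ ^ 2 * rv ((F.der A).der A) K := by ring
        _ ≤ rv F K := hφ
    · rw [not_lt] at h2
      have h3 : ((s + 2).choose 2 : ℝ) * ψ ^ 2 * rv ((F.der A).der A) K ≤ 0 := by
        have : ((s + 2).choose 2 : ℝ) * ψ ^ 2 * rv ((F.der A).der A) K =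
          ψ ^ 2 * (((s + 2).choose 2 : ℝ) * rv ((F.der A).der A) K) := by ring
        rw [this]
        exact mul_nonpos_of_nonneg_of_nonpos (sq_nonneg _) h2
      linarith
  rcases le_total ε φ with h1 | h1
  · have h2 := key (φ - ε) (by linarith) (by linarith)
    have h3 : K - φ • A + ε • A = K - (φ - ε) • A := by
      rw [sub_smul]
      abel
    rw [h3]
    exact Gam.sub_GamC h2
  · have h2 := key 0 le_rfl h0
    have h3 : K - φ • A + ε • A = K - (0 : ℝ) • A + (ε - φ) • A := by
      rw [zero_smul, sub_smul]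
      abel
    rw [h3]
    refine GamC.add hH (Gam.sub_GamC h2) ?_
    exact GamC.smul hH (Gam.sub_GamC hAd) (by linarith)

end GTH
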