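import Pool.Agent.helper44.SC.Gard5

/-!
# Garding theory: the operators `1 + λ_i d_{A_i}`
-/

set_option autoImplicit false

open Polynomial Set Filter Topology

noncomputable section

namespace GTH

variable {V W : Type*} [AddCommGroup V] [Module ℝ V] [AddCommGroup W] [Module ℂ W]

/-! ### multisets of arguments -/

/-- the multiset of values of a family. -/
def ms {α : Type*} {s : ℕ} (v : Fin s → α) : Multiset α := (Finset.univ : Finset (Fin s)).val.map v

theorem exists_perm_of_ms {α : Type*} {s : ℕ} (v w : Fin s → α) (h : ms v = ms w) :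
    ∃ σ : Equiv.Perm (Fin s), ∀ i, w (σ i) = v i := by
  classical
  have hcard : ∀ c : α, Fintype.card {i // v i = c} = Fintype.card {i // w i = c} := by
    intro c
    have h1 : Multiset.count c (ms v) = Multiset.count c (ms w) := by rw [h]
    unfold ms at h1
    rw [Multiset.count_map, Multiset.count_map] at h1
    rw [Fintype.card_subtype, Fintype.card_subtype]
    simp only [Finset.card_def, Finset.filter_val]
    simp only [eq_comm] at h1 ⊢
    exact h1
  refine ⟨Equiv.ofFiberEquiv (fun c => Fintype.equivOfCardEq (hcard c)), fun i => ?_⟩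
  exact Equiv.ofFiberEquiv_map _ i

theorem Form.congr_ms {e : Emb V W} {s : ℕ} (F : Form e s) (v w : Fin s → W) (h : ms v = ms w) :
    F.B v = F.B w := by
  obtain ⟨σ, hσ⟩ := exists_perm_of_ms v w h
  rw [← F.symm σ w]
  congr 1
  funext i
  exact (hσ i).symm

theorem ms_getD {α : Type*} {s : ℕ} (L : List α) (z : α) (h : L.length ≤ s) :
    ms (fun j : Fin s => L.getD j z) = (L : Multiset α) + Multiset.replicate (s - L.length) z := by
  unfold ms
  rw [Fin.univ_val_map]
  induction s generalizing L with
  | zero =>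
    have hL : L = [] := List.eq_nil_of_length_eq_zero (by omega)
    subst hL
    simp
  | succ s ih =>
    cases L with
    | nil =>
      simp only [List.getD_nil, List.ofFn_const, List.length_nil, Nat.sub_zero,
        Multiset.coe_nil, zero_add, Multiset.coe_replicate]
    | cons a L =>
      have h1 := ih L (by simpa using h)
      rw [List.ofFn_succ]
      simp only [Fin.val_zero, List.getD_cons_zero, Fin.val_succ, List.getD_cons_succ,
        List.length_cons, Nat.add_sub_add_right]
      rw [← Multiset.cons_coe, h1, ← Multiset.cons_coe, Multiset.cons_add]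

theorem ms_update {α : Type*} {s : ℕ} (v : Fin s → α) (j : Fin s) (a : α) :
    v j ::ₘ ms (Function.update v j a) = a ::ₘ ms v := by
  classical
  have h1 : (Finset.univ : Finset (Fin s)) = insert j (Finset.univ.erase j) := by
    rw [Finset.insert_erase (Finset.mem_univ j)]
  have h2 : ∀ w : Fin s → α, ms w = w j ::ₘ (Finset.univ.erase j).val.map w := by
    intro w
    unfold ms
    conv_lhs => rw [h1]
    rw [Finset.insert_val_of_notMem (by simp), Multiset.map_cons]
  rw [h2 (Function.update v j a), h2 v]
  have h3 : (Finset.univ.erase j).val.map (Function.update v j a) = (Finset.univ.erase j).val.map v := by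
    refine Multiset.map_congr rfl fun i hi => ?_
    have : i ≠ j := by
      rw [Finset.mem_val] at hi
      exact (Finset.mem_erase.1 hi).1
    rw [Function.update_of_ne this]
  rw [h3, Function.update_self, Multiset.cons_swap]

/-- the value with the entries of a list and then `z`. -/
def Form.lst {e : Emb V W} {s : ℕ} (F : Form e s) (L : List W) (z : W) : ℂ :=
  F.B (fun j => L.getD j z)

theorem Form.lst_nil {e : Emb V W} {s : ℕ} (F : Form e s) (z : W) : F.lst [] z = dg F.B z := by
  simp [Form.lst, dg]

theorem Form.lst_perm {e : Emb V W} {s : ℕ} (F : Form e s) {L L' : List W} (z : W)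
    (h : L.Perm L') (hL : L.length ≤ s) : F.lst L z = F.lst L' z := by
  refine F.congr_ms _ _ ?_
  rw [ms_getD L z hL, ms_getD L' z (h.length_eq ▸ hL), Multiset.coe_eq_coe.2 h, h.length_eq]

theorem Form.lst_update {e : Emb V W} {s : ℕ} (F : Form e s) (L : List W) (z a : W) (j : Fin s)
    (hj : L.length ≤ j) : F.B (Function.update (fun j => L.getD j z) j a) = F.lst (a :: L) z := by
  refine F.congr_ms _ _ ?_
  have hL : L.length ≤ s := hj.trans j.2.le
  have hL' : L.length < s := lt_of_le_of_lt hj j.2
  have h1 := ms_update (fun j : Fin s => L.getD j z) j a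
  have h2 : L.getD j z = z := by
    rw [List.getD_eq_default _ _ hj]
  rw [h2, ms_getD L z hL] at h1
  have h3 : s - L.length = (s - (L.length + 1)) + 1 := by omega
  rw [h3, Multiset.replicate_succ, Multiset.add_cons, Multiset.cons_swap] at h1
  have h4 := (Multiset.cons_inj_right z).1 h1
  rw [h4, ms_getD (a :: L) z (by simpa using hL'), ← Multiset.cons_coe, Multiset.cons_add,
    List.length_cons]

/-! ### inserting a vector -/

/-- the multilinear map `w ↦ ℓ (w j) * B (update w j c)`. -/
def insM {s : ℕ} (B : MultilinearMap ℂ (fun _ : Fin s => W) ℂ) (l : W →ₗ[ℂ] ℂ) (c : W) (j : Fin s) :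
    MultilinearMap ℂ (fun _ : Fin s => W) ℂ where
  toFun w := l (w j) * B (Function.update w j c)
  map_update_add' := by
    intro inst w k x y
    have hinst : inst = instDecidableEqFin s := Subsingleton.elim _ _
    subst hinst
    by_cases hk : k = j
    · subst hk
      simp only [Function.update_self, Function.update_idem, map_add]
      ring
    · have h1 : ∀ z : W, Function.update (Function.update w k z) j c =
          Function.update (Function.update w j c) k z := by
        intro z
        exact Function.update_comm hk _ _ _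
      simp only [h1]
      rw [B.map_update_add]
      simp only [Function.update_of_ne (Ne.symm hk)]
      ring
  map_update_smul' := by
    intro inst w k x y
    have hinst : inst = instDecidableEqFin s := Subsingleton.elim _ _
    subst hinst
    by_cases hk : k = j
    · subst hk
      simp only [Function.update_self, Function.update_idem, map_smul, smul_eq_mul]
      ring
    · have h1 : ∀ z : W, Function.update (Function.update w k z) j c =
          Function.update (Function.update w j c) k z := by
        intro z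
        exact Function.update_comm hk _ _ _
      simp only [h1]
      rw [B.map_update_smul]
      simp only [Function.update_of_ne (Ne.symm hk), smul_eq_mul]
      ring

theorem insM_apply {s : ℕ} (B : MultilinearMap ℂ (fun _ : Fin s => W) ℂ) (l : W →ₗ[ℂ] ℂ) (c : W)
    (j : Fin s) (w : Fin s → W) : insM B l c j w = l (w j) * B (Function.update w j c) := rfl

theorem pol_coeff_one' {s : ℕ} (B : MultilinearMap ℂ (fun _ : Fin s => W) ℂ) (u a : W) :
    (pol B u a).coeff 1 = ∑ j, B (Function.update (fun _ => u) j a) := by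
  rw [pol_coeff, ← Finset.sum_filter]
  have h1 : (Finset.univ.filter fun S : Finset (Fin s) => S.card = 1) =
      Finset.univ.image (fun i : Fin s => ({i} : Finset (Fin s))) := by
    ext S
    simp only [Finset.mem_filter, Finset.mem_univ, true_and, Finset.mem_image]
    rw [Finset.card_eq_one]
    constructor
    · rintro ⟨a, ha⟩
      exact ⟨a, ha.symm⟩
    · rintro ⟨a, ha⟩
      exact ⟨a, ha.symm⟩
  rw [h1, Finset.sum_image (fun i _ j _ h => Finset.singleton_injective h)]
  refine Finset.sum_congr rfl fun j _ => ?_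
  congr 1
  funext i
  simp only [Finset.mem_singleton]
  by_cases hi : i = j
  · subst hi
    simp
  · rw [if_neg hi, Function.update_of_ne hi]

/-! ### additional real variables -/

/-- additional variables. -/
def embI (e : Emb V W) (ι : Type*) : Emb (V × (ι → ℝ)) (W × (ι → ℂ)) where
  f p := (e.f p.1, fun i => (p.2 i : ℂ))
  add := by
    intro x y
    ext1
    · exact e.add _ _
    · funext i
      simp
  smul := by
    intro r x
    ext1
    · exact e.smul _ _
    · funext i
      simp

variable {ι : Type*}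

/-- pull back. -/
def Form.lift0 {e : Emb V W} {s : ℕ} (F : Form e s) (ι : Type*) : Form (embI e ι) s where
  B := F.B.compLinearMap (fun _ => LinearMap.fst ℂ W (ι → ℂ))
  symm := by
    intro σ v
    exact F.symm σ (fun i => (v i).1)
  real := by
    intro v
    exact F.real (fun i => (v i).1)

theorem Form.lift0_B {e : Emb V W} {s : ℕ} (F : Form e s) (w : Fin s → W × (ι → ℂ)) :
    (F.lift0 ι).B w = F.B (fun i => (w i).1) := rfl

/-- the coordinate. -/
def coordI (W : Type*) [AddCommGroup W] [Module ℂ W] (i : ι) : (W × (ι → ℂ)) →ₗ[ℂ] ℂ :=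
  (LinearMap.proj i).comp (LinearMap.snd ℂ W (ι → ℂ))

theorem coordI_apply (i : ι) (p : W × (ι → ℂ)) : coordI W i p = p.2 i := rfl

/-- the operator `1 + λ_i d_a`. -/
def Form.step {e : Emb V W} {s : ℕ} (G : Form (embI e ι) s) (i : ι) (a : V) :
    Form (embI e ι) s where
  B := G.B + ∑ j, insM G.B (coordI W i) ((embI e ι).f (a, 0)) j
  symm := by
    intro σ v
    rw [_root_.add_apply, _root_.add_apply, G.symm σ v]
    congr 1
    rw [_root_.sum_apply, _root_.sum_apply]
    refine Fintype.sum_equiv σ _ _ fun j => ?_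
    rw [insM_apply, insM_apply]
    congr 1
    rw [← G.symm σ (Function.update v (σ j) _)]
    congr 1
    funext k
    by_cases hk : k = j
    · subst hk
      simp
    · rw [Function.update_of_ne hk, Function.update_of_ne (fun h => hk (σ.injective h))]
  real := by
    intro v
    rw [_root_.add_apply, Complex.add_im, G.real, zero_add, _root_.sum_apply,
      Complex.im_sum]
    refine Finset.sum_eq_zero fun j _ => ?_
    rw [insM_apply]
    have h1 : Function.update (fun i => (embI e ι).f (v i)) j ((embI e ι).f (a, 0)) =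
        fun i => (embI e ι).f (Function.update v j (a, 0) i) := by
      funext k
      by_cases hk : k = j
      · subst hk
        simp
      · rw [Function.update_of_ne hk, Function.update_of_ne hk]
    rw [h1, Complex.mul_im, G.real, mul_zero, zero_add]
    have h2 : (coordI W i ((embI e ι).f (v j))).im = 0 := by
      rw [coordI_apply]
      exact Complex.ofReal_im _
    rw [h2, zero_mul]

theorem Form.step_B {e : Emb V W} {s : ℕ} (G : Form (embI e ι) s) (i : ι) (a : V)
    (w : Fin s → W × (ι → ℂ)) : (G.step i a).B w =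
      G.B w + ∑ j, (w j).2 i * G.B (Function.update w j ((embI e ι).f (a, 0))) := by
  change (G.B + ∑ j, insM G.B (coordI W i) ((embI e ι).f (a, 0)) j) w = _
  rw [_root_.add_apply, _root_.sum_apply]
  rfl

theorem Form.step_dg {e : Emb V W} {s : ℕ} (G : Form (embI e ι) s) (i : ι) (a : V)
    (z : W × (ι → ℂ)) : dg (G.step i a).B z =
      dg G.B z + z.2 i * (pol G.B z ((embI e ι).f (a, 0))).coeff 1 := by
  unfold dg
  rw [G.step_B, pol_coeff_one', Finset.mul_sum]

theorem sum_im_nonpos (m : Multiset ℂ) (h : ∀ r ∈ m, r.im < 0) :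
    ((m.map fun z => 1 / (0 - z)).sum).im ≤ 0 ∧
      (((m.map fun z => 1 / (0 - z)).sum).im = 0 → ((m.map fun z => 1 / (0 - z)).sum) = 0) := by
  by_cases hm : m = 0
  · subst hm
    simp
  · have := sum_im_neg m hm h
    exact ⟨this.le, fun h0 => absurd h0 this.ne⟩

theorem Hyp.step {e : Emb V W} {s : ℕ} {G : Form (embI e ι) s} {E : V} (h : Hyp G (E, 0)) (i : ι)
    {a : V} (ha : (a, 0) ∈ GamC G (E, 0)) : Hyp (G.step i a) (E, 0) := by
  intro x z hz
  set Z : W × (ι → ℂ) := (embI e ι).f x + z • (embI e ι).f (E, 0) with hZ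
  have hz2 : Z.2 i = ((x.2 i : ℝ) : ℂ) := by
    rw [hZ]
    simp [embI]
  have h0 : ∀ w : ℂ, 0 ≤ w.im → dg G.B (Z + w • (embI e ι).f (a, 0)) ≠ 0 := by
    intro w hw
    have hy : z.im • ((E, 0) : V × (ι → ℝ)) + w.im • (a, 0) ∈ Gam G (E, 0) :=
      Gam.add_GamC h (Gam.smul h.mem hz) (GamC.smul h ha hw)
    have h1 := (h.change hy) (x + z.re • (E, 0) + w.re • (a, 0)) Complex.I (by simp)
    have h2 : (embI e ι).f (x + z.re • (E, 0) + w.re • (a, 0)) +
        Complex.I • (embI e ι).f (z.im • (E, 0) + w.im • (a, 0)) =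
        Z + w • (embI e ι).f (a, 0) := by
      rw [(embI e ι).add, (embI e ι).add, (embI e ι).add, (embI e ι).smul, (embI e ι).smul,
        (embI e ι).smul, (embI e ι).smul, smul_add, smul_smul, smul_smul, hZ]
      have hz' : z • (embI e ι).f (E, 0) = (z.re : ℂ) • (embI e ι).f (E, 0) +
          (Complex.I * (z.im : ℂ)) • (embI e ι).f (E, 0) := by
        rw [← add_smul, mul_comm Complex.I, Complex.re_add_im]
      have hw' : w • (embI e ι).f (a, 0) = (w.re : ℂ) • (embI e ι).f (a, 0) +
          (Complex.I * (w.im : ℂ)) • (embI e ι).f (a, 0) := by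
        rw [← add_smul, mul_comm Complex.I, Complex.re_add_im]
      rw [hz', hw']
      abel
    rwa [h2] at h1
  set p := pol G.B Z ((embI e ι).f (a, 0)) with hp
  have hs : p.Splits := IsAlgClosed.splits _
  have hne : p.eval 0 ≠ 0 := by
    rw [hp, pol_eval]
    exact h0 0 (by simp)
  have h1 := hs.eval_derivative_eq_eval_mul_sum hne
  have hroots : ∀ r ∈ p.roots, r.im < 0 := by
    intro r hr
    have h3 : p.eval r = 0 := isRoot_of_mem_roots hr
    by_contra hcon
    rw [hp, pol_eval] at h3
    exact h0 r (not_lt.1 hcon) h3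
  obtain ⟨h5, h6⟩ := sum_im_nonpos _ hroots
  have h7 : p.coeff 1 = p.derivative.eval 0 := by
    rw [← coeff_zero_eq_eval_zero, coeff_derivative]
    simp
  rw [Form.step_dg, hz2, ← hp, h7, h1]
  have h8 : dg G.B Z = p.eval 0 := by
    rw [hp, pol_eval]
    simp
  rw [h8]
  set ρ := (p.roots.map fun z => 1 / (0 - z)).sum with hρ
  have h9 : p.eval 0 + ((x.2 i : ℝ) : ℂ) * (p.eval 0 * ρ) = p.eval 0 * (1 + ((x.2 i : ℝ) : ℂ) * ρ) := by
    ring
  rw [h9]
  refine mul_ne_zero hne fun h10 => ?_
  have h11 : (1 + ((x.2 i : ℝ) : ℂ) * ρ).im = 0 := by rw [h10]; rfl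
  have h12 : (1 + ((x.2 i : ℝ) : ℂ) * ρ).re = 0 := by rw [h10]; rfl
  rw [Complex.add_im, Complex.one_im, Complex.im_ofReal_mul, zero_add] at h11
  rcases mul_eq_zero.1 h11 with h13 | h13
  · rw [h13] at h10
    simp at h10
  · have h14 := h6 h13
    rw [h14] at h10
    simp at h10

theorem rv_step {e : Emb V W} {s : ℕ} (G : Form (embI e ι) s) (i : ι) (a : V) (p : V × (ι → ℝ)) :
    rv (G.step i a) p = rv G p + p.2 i * ∑ j, G.re (Function.update (fun _ => p) j (a, 0)) := by
  have h1 : ((rv (G.step i a) p : ℝ) : ℂ) =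
      ((rv G p + p.2 i * ∑ j, G.re (Function.update (fun _ => p) j (a, 0)) : ℝ) : ℂ) := by
    push_cast
    rw [rv_coe, rv_coe, G.step_dg, pol_coeff_one']
    congr 2
    refine Finset.sum_congr rfl fun j _ => ?_
    rw [G.re_coe]
    congr 1
    funext k
    by_cases hk : k = j
    · subst hk
      simp
    · rw [Function.update_of_ne hk, Function.update_of_ne hk]
  exact_mod_cast h1

theorem Gam.step {e : Emb V W} {s : ℕ} {G : Form (embI e ι) s} {E : V} (h : Hyp G (E, 0))
    (hE : 0 < rv G (E, 0)) (i : ι) {a : V} (ha : (a, 0) ∈ GamC G (E, 0)) {p : V × (ι → ℝ)}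
    (hp : p ∈ Gam G (E, 0)) (hpi : 0 ≤ p.2 i) : p ∈ Gam (G.step i a) (E, 0) := by
  intro t ht
  rw [← (embI e ι).smul, ← (embI e ι).add, ← rv_ne, rv_step]
  have h1 : p + t • ((E, 0) : V × (ι → ℝ)) ∈ Gam G (E, 0) := Gam.add hp ht
  have h2 := Gam.pos h hE h1
  have h3 : (p + t • ((E, 0) : V × (ι → ℝ))).2 i = p.2 i := by simp
  rw [h3]
  have h4 : 0 ≤ ∑ j, G.re (Function.update (fun _ => p + t • ((E, 0) : V × (ι → ℝ))) j (a, 0)) := by
    refine Finset.sum_nonneg fun j _ => ?_
    refine GamC.mixed_nonneg h hE _ fun k => ?_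
    by_cases hk : k = j
    · subst hk
      simpa using ha
    · rw [Function.update_of_ne hk]
      exact Gam.sub_GamC h1
  have h5 := mul_nonneg hpi h4
  exact (by linarith : (0:ℝ) < _).ne'

/-- the form of `∏ (1 + λ_i d_{A_i}) F`. -/
def mapF {e : Emb V W} {s : ℕ} (F : Form e s) (A : ι → V) : List ι → Form (embI e ι) s
  | [] => F.lift0 ι
  | i :: l => (mapF F A l).step i (A i)

theorem Hyp.lift0 {e : Emb V W} {s : ℕ} {F : Form e s} {E : V} (h : Hyp F E) :
    Hyp (F.lift0 ι) (E, 0) := by
  intro x z hz
  exact h x.1 z hz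

theorem Gam.lift0 {e : Emb V W} {s : ℕ} {F : Form e s} {E : V} (p : V × (ι → ℝ)) :
    p ∈ Gam (F.lift0 ι) (E, 0) ↔ p.1 ∈ Gam F E := Iff.rfl

theorem rv_lift0 {e : Emb V W} {s : ℕ} {F : Form e s} (p : V × (ι → ℝ)) :
    rv (F.lift0 ι) p = rv F p.1 := rfl

theorem mapF_hyp {e : Emb V W} {s : ℕ} {F : Form e s} {E : V} (h : Hyp F E) (hE : 0 < rv F E)
    {A : ι → V} (hA : ∀ i, A i ∈ GamC F E) (l : List ι) :
    Hyp (mapF F A l) (E, 0) ∧ rv (mapF F A l) (E, 0) = rv F E ∧
      (∀ p : V × (ι → ℝ), p.1 ∈ Gam F E → (∀ i, 0 ≤ p.2 i) → p ∈ Gam (mapF F A l) (E, 0)) := by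
  induction l with
  | nil =>
    exact ⟨h.lift0, rfl, fun p hp _ => (Gam.lift0 p).2 hp⟩
  | cons i l ih =>
    obtain ⟨h1, h2, h3⟩ := ih
    have h4 : (A i, (0 : ι → ℝ)) ∈ GamC (mapF F A l) (E, 0) := by
      intro ε hε
      refine h3 _ ?_ ?_
      · exact hA i ε hε
      · intro j
        simp
    refine ⟨h1.step i h4, ?_, ?_⟩
    · change rv ((mapF F A l).step i (A i)) (E, 0) = _
      rw [rv_step, h2]
      simp
    · intro p hp hp2
      exact Gam.step h1 (by rw [h2]; exact hE) i h4 (h3 p hp hp2) (hp2 i)

end GTH
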