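import Pool.Agent.helper44.SC.Gard6

/-!
# Garding theory: the expansion of `∏ (1 + λ_i d_{A_i}) F`
-/

set_option autoImplicit false

open Polynomial Set Filter Topology

noncomputable section

namespace GTH

variable {V W : Type*} [AddCommGroup V] [Module ℝ V] [AddCommGroup W] [Module ℂ W]

variable {ι : Type*}

theorem sum_tail (s k : ℕ) (c : ℂ) :
    (∑ j : Fin s, if (j : ℕ) < k then (0 : ℂ) else c) = ((s - k : ℕ) : ℂ) * c := by
  rw [Fin.sum_univ_eq_sum_range (fun j => if j < k then (0 : ℂ) else c) s, Finset.sum_ite,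
    Finset.sum_const_zero, zero_add, Finset.sum_const, nsmul_eq_mul]
  congr 2
  have : (Finset.range s).filter (fun j => ¬ j < k) = Finset.Ico k s := by
    ext j
    simp only [Finset.mem_filter, Finset.mem_range, not_lt, Finset.mem_Ico]
    tauto
  rw [this, Nat.card_Ico]

theorem Form.step_lst {e : Emb V W} {s : ℕ} (G : Form (embI e ι) s) (i : ι) (a : V)
    (L : List W) (z : W × (ι → ℂ)) (hL : L.length ≤ s) :
    (G.step i a).lst (L.map fun w => (w, 0)) z = G.lst (L.map fun w => (w, 0)) z +
      z.2 i * ((s - L.length : ℕ) : ℂ) * G.lst ((e.f a :: L).map fun w => (w, 0)) z := by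
  unfold Form.lst
  rw [G.step_B]
  congr 1
  have h1 : ∀ j : Fin s, (((L.map fun w => ((w, 0) : W × (ι → ℂ))).getD j z)).2 i *
      G.B (Function.update (fun j : Fin s => (L.map fun w => ((w, 0) : W × (ι → ℂ))).getD j z) j
        ((embI e ι).f (a, 0))) =
      if (j : ℕ) < L.length then (0 : ℂ) else
        z.2 i * G.B (fun j : Fin s => ((e.f a :: L).map fun w => ((w, 0) : W × (ι → ℂ))).getD j z) := by
    intro j
    by_cases hj : (j : ℕ) < L.length
    · rw [if_pos hj]
      have h2 : ((L.map fun w => ((w, 0) : W × (ι → ℂ))).getD j z) = (L[(j : ℕ)], 0) := by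
        rw [List.getD_eq_getElem _ _ (by simpa using hj), List.getElem_map]
      rw [h2]
      simp
    · rw [if_neg hj]
      rw [not_lt] at hj
      have h2 : ((L.map fun w => ((w, 0) : W × (ι → ℂ))).getD j z) = z := by
        rw [List.getD_eq_default _ _ (by simpa using hj)]
      have h3 := G.lst_update (L.map fun w => ((w, 0) : W × (ι → ℂ))) z ((embI e ι).f (a, 0)) j
        (by simpa using hj)
      rw [h2, h3]
      congr 1
  rw [Finset.sum_congr rfl (fun j _ => h1 j), sum_tail]
  ring

theorem Form.lift0_lst {e : Emb V W} {s : ℕ} (F : Form e s) (L : List W) (z : W × (ι → ℂ)) :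
    (F.lift0 ι).lst (L.map fun w => (w, 0)) z = F.lst L z.1 := by
  unfold Form.lst
  rw [F.lift0_B]
  congr 1
  funext j
  have h := List.getD_map (L.map fun w => ((w, 0) : W × (ι → ℂ))) z (n := (j : ℕ)) Prod.fst
  rw [← h, List.map_map]
  congr 1
  exact List.map_id L

/-- **the expansion.** -/
theorem mapF_lst [DecidableEq ι] {e : Emb V W} {s : ℕ} (F : Form e s) (A : ι → V) (l : List ι)
    (hl : l.Nodup) (L : List W) (hL : L.length ≤ s) (z : W × (ι → ℂ)) :
    (mapF F A l).lst (L.map fun w => (w, 0)) z = ∑ T ∈ l.toFinset.powerset,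
      (∏ i ∈ T, z.2 i) * (((s - L.length).descFactorial T.card : ℕ) : ℂ) *
        F.lst ((T.toList.map fun i => e.f (A i)) ++ L) z.1 := by
  induction l generalizing L with
  | nil =>
    simp [mapF, Form.lift0_lst]
  | cons i l ih =>
    have hil : i ∉ l.toFinset := by
      rw [List.mem_toFinset]
      exact (List.nodup_cons.1 hl).1
    have hl' := (List.nodup_cons.1 hl).2
    change ((mapF F A l).step i (A i)).lst _ z = _
    rw [Form.step_lst _ _ _ _ _ hL, ih hl' L hL, List.toFinset_cons,
      Finset.sum_powerset_insert hil]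
    congr 1
    rcases hL.eq_or_lt with h0 | h0
    · have h1 : s - L.length = 0 := by omega
      rw [h1, Nat.cast_zero, mul_zero, zero_mul]
      symm
      refine Finset.sum_eq_zero fun T hT => ?_
      have hiT : i ∉ T := fun h => hil (Finset.mem_powerset.1 hT h)
      rw [Finset.card_insert_of_notMem hiT, Nat.zero_descFactorial_succ, Nat.cast_zero, mul_zero,
        zero_mul]
    · rw [ih hl' (e.f (A i) :: L) (by simpa using h0), Finset.mul_sum]
      refine Finset.sum_congr rfl fun T hT => ?_
      have hiT : i ∉ T := fun h => hil (Finset.mem_powerset.1 hT h)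
      rw [Finset.card_insert_of_notMem hiT, Finset.prod_insert hiT, List.length_cons]
      obtain ⟨k, hk⟩ : ∃ k, s - L.length = k + 1 := ⟨s - L.length - 1, by omega⟩
      have hk' : s - (L.length + 1) = k := by omega
      rw [hk, hk', Nat.succ_descFactorial_succ]
      by_cases hTk : k < T.card
      · rw [Nat.descFactorial_eq_zero_iff_lt.2 hTk]
        simp
      · have h2 : F.lst ((T.toList.map fun i => e.f (A i)) ++ (e.f (A i) :: L)) z.1 =
            F.lst (((insert i T).toList.map fun i => e.f (A i)) ++ L) z.1 := by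
          refine F.lst_perm _ ?_ ?_
          · refine List.perm_middle.trans ?_
            rw [← List.cons_append]
            refine List.Perm.append_right L ?_
            have h3 := (Finset.toList_insert hiT).map (fun i => e.f (A i))
            exact h3.symm
          · rw [List.length_append, List.length_map, Finset.length_toList, List.length_cons]
            omega
        rw [h2]
        push_cast
        ring

theorem mapF_dg [DecidableEq ι] {e : Emb V W} {s : ℕ} (F : Form e s) (A : ι → V) (l : List ι)
    (hl : l.Nodup) (z : W × (ι → ℂ)) :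
    dg (mapF F A l).B z = ∑ T ∈ l.toFinset.powerset,
      (∏ i ∈ T, z.2 i) * ((s.descFactorial T.card : ℕ) : ℂ) *
        F.lst (T.toList.map fun i => e.f (A i)) z.1 := by
  have h := mapF_lst F A l hl [] (by simp) z
  simpa [Form.lst_nil] using h

/-- the real value of a list. -/
def Form.lstR {e : Emb V W} {s : ℕ} (F : Form e s) (L : List V) (x : V) : ℝ :=
  F.re (fun j => L.getD j x)

theorem Form.lstR_coe {e : Emb V W} {s : ℕ} (F : Form e s) (L : List V) (x : V) :
    ((F.lstR L x : ℝ) : ℂ) = F.lst (L.map e.f) (e.f x) := by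
  unfold Form.lstR Form.lst
  rw [F.re_coe]
  congr 1
  funext j
  exact (List.getD_map L x (n := (j : ℕ)) e.f).symm

theorem mapF_rv [DecidableEq ι] {e : Emb V W} {s : ℕ} (F : Form e s) (A : ι → V) (l : List ι)
    (hl : l.Nodup) (p : V × (ι → ℝ)) :
    rv (mapF F A l) p = ∑ T ∈ l.toFinset.powerset,
      (∏ i ∈ T, p.2 i) * (s.descFactorial T.card : ℝ) * F.lstR (T.toList.map A) p.1 := by
  have h : ((rv (mapF F A l) p : ℝ) : ℂ) = ((∑ T ∈ l.toFinset.powerset,
      (∏ i ∈ T, p.2 i) * (s.descFactorial T.card : ℝ) * F.lstR (T.toList.map A) p.1 : ℝ) : ℂ) := by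
    rw [rv_coe, mapF_dg F A l hl]
    push_cast
    refine Finset.sum_congr rfl fun T _ => ?_
    rw [F.lstR_coe, List.map_map]
    rfl
  exact_mod_cast h

end GTH
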