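import Pool.Agent.helper44.SC.Gard7
import Pool.Agent.helper90.SC.LA
import Pool.Agent.helper69.SN.Defs

/-!
# Garding theory: the determinant and the forms `∏ (1 + λ_i d_{B_i}) det`
-/

set_option autoImplicit false

open Polynomial Set Filter Topology

noncomputable section

namespace GTH

open Pool.Agent.helper83.SC (mD)
open Pool.Agent.helper69.SN (Mat)

/-- symmetric real matrices. -/
def SymM (m : ℕ) : Submodule ℝ (Mat m) where
  carrier := {M | M.IsSymm}
  add_mem' := fun ha hb => Matrix.IsSymm.add ha hb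
  zero_mem' := Matrix.isSymm_zero
  smul_mem' := fun c _ h => Matrix.IsSymm.smul h c

theorem SymM.mem_iff {m : ℕ} {M : Mat m} : M ∈ SymM m ↔ M.IsSymm := Iff.rfl

/-- complexification. -/
def cx {m : ℕ} (M : Mat m) : Matrix (Fin m) (Fin m) ℂ := M.map (fun x : ℝ => (x : ℂ))

/-- complexification of symmetric matrices. -/
def embM (m : ℕ) : Emb (SymM m) (Matrix (Fin m) (Fin m) ℂ) where
  f M := cx M.1
  add := by
    intro x y
    ext i j
    simp [cx]
  smul := by
    intro r x
    ext i j
    simp [cx]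

/-- the rows. -/
def rowC {m : ℕ} (i : Fin m) : Matrix (Fin m) (Fin m) ℂ →ₗ[ℂ] (Fin m → ℂ) where
  toFun M := fun j => M i j
  map_add' M N := by ext j; simp
  map_smul' c M := by ext j; simp

/-- the complex mixed discriminant. -/
def mdc (m : ℕ) : MultilinearMap ℂ (fun _ : Fin m => Matrix (Fin m) (Fin m) ℂ) ℂ :=
  (1 / (m.factorial : ℂ)) • ∑ σ : Equiv.Perm (Fin m),
    (((Matrix.detRowAlternating (n := Fin m) (R := ℂ)).toMultilinearMap.compLinearMap
      rowC).domDomCongr σ)

theorem mdc_apply {m : ℕ} (M : Fin m → Matrix (Fin m) (Fin m) ℂ) : mdc m M =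
    (1 / (m.factorial : ℂ)) * ∑ σ : Equiv.Perm (Fin m), (Matrix.of fun i j => M (σ i) i j).det := by
  unfold mdc
  rw [_root_.smul_apply, _root_.sum_apply, smul_eq_mul]
  rfl

theorem mdc_symm {m : ℕ} (σ : Equiv.Perm (Fin m)) (M : Fin m → Matrix (Fin m) (Fin m) ℂ) :
    mdc m (fun i => M (σ i)) = mdc m M := by
  rw [mdc_apply, mdc_apply]
  congr 1
  exact Fintype.sum_equiv (Equiv.mulLeft σ) _ _ (fun τ => rfl)

theorem mdc_real {m : ℕ} (M : Fin m → Mat m) : mdc m (fun i => cx (M i)) = ((mD M : ℝ) : ℂ) := by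
  rw [mdc_apply]
  unfold mD
  push_cast
  congr 1
  refine Finset.sum_congr rfl fun σ _ => ?_
  have h := RingHom.map_det Complex.ofRealHom (Matrix.of fun i j => M (σ i) i j)
  simp only [Complex.ofRealHom_eq_coe] at h
  rw [h]
  rfl

theorem mdc_const {m : ℕ} (Z : Matrix (Fin m) (Fin m) ℂ) : mdc m (fun _ => Z) = Z.det := by
  rw [mdc_apply]
  have h : ∀ σ : Equiv.Perm (Fin m),
      (Matrix.of fun i j => (fun _ : Fin m => Z) (σ i) i j).det = Z.det := fun σ => rfl
  rw [Finset.sum_congr rfl (fun σ _ => h σ), Finset.sum_const, Finset.card_univ,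
    Fintype.card_perm, Fintype.card_fin, nsmul_eq_mul, ← mul_assoc, one_div,
    inv_mul_cancel₀ (by exact_mod_cast Nat.factorial_ne_zero m), one_mul]

/-- the form of the determinant. -/
def detF (m : ℕ) : Form (embM m) m where
  B := mdc m
  symm := mdc_symm
  real := by
    intro v
    have := mdc_real (fun i => (v i).1)
    change (mdc m fun i => cx (v i).1).im = 0
    rw [this]
    exact Complex.ofReal_im _

theorem detF_re {m : ℕ} (v : Fin m → SymM m) : (detF m).re v = mD (fun i => (v i).1) := by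
  rw [Form.re_apply]
  change (mdc m fun i => cx (v i).1).re = _
  rw [mdc_real]
  exact Complex.ofReal_re _

theorem detF_rv {m : ℕ} (v : SymM m) : rv (detF m) v = v.1.det := by
  rw [← Form.re_const, detF_re]
  have h := mdc_real (fun _ : Fin m => v.1)
  rw [mdc_const] at h
  have h2 := RingHom.map_det Complex.ofRealHom v.1
  have h3 : ((v.1.det : ℝ) : ℂ) = (cx v.1).det := h2
  rw [← h3] at h
  exact_mod_cast h.symm

/-- the identity. -/
def oneM (m : ℕ) : SymM m := ⟨1, Matrix.isSymm_one⟩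

theorem detF_hyp (m : ℕ) : Hyp (detF m) (oneM m) := by
  intro x z hz
  change mdc m (fun _ => cx x.1 + z • cx (1 : Mat m)) ≠ 0
  rw [mdc_const]
  intro hdet
  obtain ⟨v, hv, hv0⟩ := Matrix.exists_mulVec_eq_zero_iff.2 hdet
  have hone : cx (1 : Mat m) = 1 := by
    unfold cx
    exact Matrix.map_one _ (by simp) (by simp)
  rw [hone, Matrix.add_mulVec, Matrix.smul_mulVec, Matrix.one_mulVec] at hv0
  have hH : (cx x.1).IsHermitian := by
    have hx : x.1.IsSymm := x.2
    ext i j
    simp only [cx, Matrix.conjTranspose_apply, Matrix.map_apply, Complex.star_def,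
      Complex.conj_ofReal]
    rw [hx.apply]
  have h1 := hH.im_star_dotProduct_mulVec_self v
  have h2 : star v ⬝ᵥ ((cx x.1).mulVec v) = - (z * (star v ⬝ᵥ v)) := by
    have : (cx x.1).mulVec v = -(z • v) := eq_neg_of_add_eq_zero_left hv0
    rw [this, dotProduct_neg, dotProduct_smul, smul_eq_mul]
  have h3 : star v ⬝ᵥ v = ((∑ i, Complex.normSq (v i) : ℝ) : ℂ) := by
    unfold dotProduct
    push_cast
    refine Finset.sum_congr rfl fun i _ => ?_
    rw [Pi.star_apply, Complex.star_def, Complex.normSq_eq_conj_mul_self]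
  have h4 : 0 < ∑ i, Complex.normSq (v i) := by
    obtain ⟨i, hi⟩ := Function.ne_iff.1 hv
    exact Finset.sum_pos' (fun i _ => Complex.normSq_nonneg _)
      ⟨i, Finset.mem_univ i, Complex.normSq_pos.2 hi⟩
  rw [h2, h3] at h1
  simp only [RCLike.im_to_complex, Complex.neg_im, Complex.im_mul_ofReal] at h1
  have h5 := mul_pos hz h4
  linarith

theorem detF_one (m : ℕ) : rv (detF m) (oneM m) = 1 := by
  rw [detF_rv]
  simp [oneM]

theorem detF_posDef {m : ℕ} (M : SymM m) (hM : M.1.PosDef) : M ∈ Gam (detF m) (oneM m) := by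
  intro t ht
  rw [← (embM m).smul, ← (embM m).add, ← rv_ne, detF_rv]
  have h1 : (M + t • oneM m : SymM m).1 = M.1 + t • (1 : Mat m) := rfl
  rw [h1]
  have h2 : (t • (1 : Mat m)).PosSemidef := Matrix.PosSemidef.one.smul ht
  exact (hM.add_posSemidef h2).det_pos.ne'

theorem detF_psd {m : ℕ} (M : SymM m) (hM : M.1.PosSemidef) : M ∈ GamC (detF m) (oneM m) := by
  intro ε hε
  refine detF_posDef _ ?_
  have h1 : (M + ε • oneM m : SymM m).1 = M.1 + ε • (1 : Mat m) := rfl
  rw [h1]
  have h2 : (ε • (1 : Mat m)).PosDef := Matrix.PosDef.one.smul hε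
  exact Matrix.PosDef.posSemidef_add hM h2

theorem posDef_of_detF {m : ℕ} (M : SymM m) (hM : M ∈ Gam (detF m) (oneM m)) : M.1.PosDef := by
  have hH : M.1.IsHermitian := by
    have hx : M.1.IsSymm := M.2
    ext i j
    simp only [Matrix.conjTranspose_apply, star_trivial]
    rw [hx.apply]
  rw [hH.posDef_iff_eigenvalues_pos]
  intro i
  by_contra hcon
  rw [not_lt] at hcon
  have h1 := hM (-hH.eigenvalues i) (by linarith)
  rw [← (embM m).smul, ← (embM m).add, ← rv_ne, detF_rv] at h1
  apply h1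
  have h2 : (M + (-hH.eigenvalues i) • oneM m : SymM m).1 =
      M.1 - (hH.eigenvalues i) • (1 : Mat m) := by
    change M.1 + (-hH.eigenvalues i) • (1 : Mat m) = _
    rw [neg_smul, sub_eq_add_neg]
  rw [h2]
  refine Matrix.exists_mulVec_eq_zero_iff.1 ⟨⇑(hH.eigenvectorBasis i), ?_, ?_⟩
  · intro h3
    have h4 : (hH.eigenvectorBasis i) = 0 := by
      ext j
      exact congrFun h3 j
    have h5 := hH.eigenvectorBasis.orthonormal.ne_zero i
    exact h5 h4
  · rw [Matrix.sub_mulVec, hH.mulVec_eigenvectorBasis, Matrix.smul_mulVec, Matrix.one_mulVec,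
      sub_self]

end GTH
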